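import Pool.Agent.Q220.Theta.Main

open MeasureTheory Filter Asymptotics
open scoped unitInterval Topology

namespace Q220.Theta

/-- The sets used in the surgery for one `n`. -/
structure Good (l n : ℕ) (q B : ℝ) (G : SimpleGraph (Fin n)) (A S : Finset (Fin n)) : Prop where
  disj : Disjoint A S
  cardA : A.card = l / 2 + 1
  cardS : S.card = ⌊(n : ℝ) * q⌋₊
  low : ∀ v ∈ A ∪ S, (dg G v : ℝ) ≤ 2 * B * ((n : ℝ) * q)

section
variable {p : ℕ → ℝ} {G : GraphSeq} {l : ℕ}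

lemma exists_good (hp0 : ∀ n, 0 < p n) (hx : Tendsto (fun n : ℕ => (n : ℝ) * p n) atTop atTop)
    (hp : Tendsto p atTop (𝓝 0)) (hA : CondA p G) :
    ∃ B : ℝ, 0 < B ∧ ∃ A S : (n : ℕ) → Finset (Fin n),
      ∀ᶠ n in atTop, Good l n (p n) B (G n) (A n) (S n) := by
  obtain ⟨B, hB, hBo⟩ := (hA 2 ⊤ edge_isTree).exists_pos
  rw [isBigOWith_iff] at hBo
  refine ⟨B, hB, ?_⟩
  have key : ∀ᶠ n in atTop, ∃ AS : Finset (Fin n) × Finset (Fin n),
      Good l n (p n) B (G n) AS.1 AS.2 := by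
    have e1 : ∀ᶠ n : ℕ in atTop, p n ≤ 1 / 8 :=
      (hp.eventually (gt_mem_nhds (show (0 : ℝ) < 1 / 8 by norm_num))).mono fun _ h => h.le
    filter_upwards [hBo, e1, eventually_ge_atTop (8 * (l / 2 + 1)),
      hx.eventually_ge_atTop 1] with n h1 h2 h3 h4
    have hn : (0 : ℝ) < n := by
      have : 0 < n := by omega
      exact_mod_cast this
    have hpn := hp0 n
    have ht : 0 < 2 * B * ((n : ℝ) * p n) := by positivity
    have hsum : ((∑ v, dg (G n) v : ℕ) : ℝ) ≤ (n : ℝ) * (2 * B * ((n : ℝ) * p n)) / 2 := by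
      have h5 : ((∑ v, dg (G n) v : ℕ) : ℝ) ≤ emb (⊤ : SimpleGraph (Fin 2)) (G n) := by
        exact_mod_cast sum_dg_le (G n)
      rw [Real.norm_of_nonneg (by positivity), Real.norm_of_nonneg (by positivity)] at h1
      have h6 : ((n.descFactorial 2 : ℕ) : ℝ) ≤ (n : ℝ) ^ 2 := by
        exact_mod_cast Nat.descFactorial_le_pow n 2
      have h7 : B * ((n.descFactorial 2 : ℝ) * p n ^ (2 - 1)) ≤ B * ((n : ℝ) ^ 2 * p n) := by
        rw [show 2 - 1 = 1 from rfl, pow_one]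
        exact mul_le_mul_of_nonneg_left (mul_le_mul_of_nonneg_right h6 hpn.le) hB.le
      nlinarith
    have hm : 2 * (⌊(n : ℝ) * p n⌋₊ + (l / 2 + 1)) ≤ n := by
      have h5 : ((⌊(n : ℝ) * p n⌋₊ : ℕ) : ℝ) ≤ (n : ℝ) * p n := Nat.floor_le (by positivity)
      have h6 : (n : ℝ) * p n ≤ n / 8 := by nlinarith
      have h7 : ((8 * (l / 2 + 1) : ℕ) : ℝ) ≤ n := by exact_mod_cast h3
      have h8 : ((2 * (⌊(n : ℝ) * p n⌋₊ + (l / 2 + 1)) : ℕ) : ℝ) ≤ (n : ℝ) := by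
        rw [Nat.cast_mul, Nat.cast_add]
        rw [Nat.cast_mul] at h7
        push_cast at h7 ⊢
        linarith
      exact_mod_cast h8
    obtain ⟨A, S, a1, a2, a3, a4⟩ := exists_AS (G n) ht hsum hm
    exact ⟨(A, S), a1, a2, a3, a4⟩
  rw [eventually_atTop] at key
  obtain ⟨N, hN⟩ := key
  have : ∀ n, ∃ AS : Finset (Fin n) × Finset (Fin n), N ≤ n → Good l n (p n) B (G n) AS.1 AS.2 := by
    intro n
    by_cases h : N ≤ n
    · obtain ⟨AS, hAS⟩ := hN n h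
      exact ⟨AS, fun _ => hAS⟩
    · exact ⟨(∅, ∅), fun h' => absurd h' h⟩
  choose f hf using this
  exact ⟨fun n => (f n).1, fun n => (f n).2, eventually_atTop.2 ⟨N, hf⟩⟩

/-- The union of the two sets has at most `2 n p` elements. -/
lemma Good.card_union {n : ℕ} {q B : ℝ} {G : SimpleGraph (Fin n)} {A S : Finset (Fin n)}
    (h : Good l n q B G A S) (hx : ((l / 2 + 1 : ℕ) : ℝ) ≤ (n : ℝ) * q) :
    ((A ∪ S).card : ℝ) ≤ 2 * ((n : ℝ) * q) := by
  have h0 : 0 ≤ (n : ℝ) * q := le_trans (Nat.cast_nonneg _) hx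
  have h1 : ((A ∪ S).card : ℝ) ≤ A.card + S.card := by exact_mod_cast Finset.card_union_le A S
  rw [h.cardA, h.cardS] at h1
  have h2 := Nat.floor_le h0
  linarith

lemma half_pow_le {n c : ℕ} (h : 2 * c ≤ n) : (n : ℝ) ^ c ≤ 2 ^ c * (n.descFactorial c : ℝ) := by
  have h1 : (n + 1 - c) ^ c ≤ n.descFactorial c := Nat.pow_sub_le_descFactorial n c
  have h2 : n ≤ 2 * (n + 1 - c) := by omega
  have h3 : n ^ c ≤ 2 ^ c * n.descFactorial c := by
    calc n ^ c ≤ (2 * (n + 1 - c)) ^ c := Nat.pow_le_pow_left h2 c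
      _ = 2 ^ c * (n + 1 - c) ^ c := mul_pow _ _ _
      _ ≤ _ := Nat.mul_le_mul_left _ h1
  exact_mod_cast h3

lemma embBip_bigO {V : Type} [Fintype V] [Nontrivial V] {F : SimpleGraph V} (hF : F.Preconnected)
    (hp0 : ∀ n, 0 < p n) (hx : Tendsto (fun n : ℕ => (n : ℝ) * p n) atTop atTop)
    {B : ℝ} {A S : (n : ℕ) → Finset (Fin n)}
    (hg : ∀ᶠ n in atTop, Good l n (p n) B (G n) (A n) (S n)) :
    (fun n : ℕ => (emb F (bip (A n) (S n)) : ℝ)) =O[atTop]
      fun n : ℕ => (n.descFactorial (Fintype.card V) : ℝ) * p n ^ (Fintype.card V - 1) := by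
  set c := Fintype.card V with hc
  have hc1 : 1 < c := Fintype.one_lt_card
  refine IsBigO.of_bound (c * ((l / 2 + 1 : ℕ) * 2 ^ (c - 1)) * 2 ^ c) ?_
  filter_upwards [hg, hx.eventually_ge_atTop ((l / 2 + 1 : ℕ) : ℝ),
    eventually_ge_atTop (2 * c)] with n h1 h2 h3
  have hpn := hp0 n
  have hn : (1 : ℝ) ≤ n := by
    have : 1 ≤ n := by omega
    exact_mod_cast this
  rw [Real.norm_of_nonneg (by positivity), Real.norm_of_nonneg (by positivity)]
  have e1 : (emb F (bip (A n) (S n)) : ℝ) ≤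
      c * (((A n).card : ℝ) * ((A n ∪ S n).card : ℝ) ^ (c - 1)) := by
    exact_mod_cast emb_bip_le hF (A n) (S n)
  have e2 : ((A n ∪ S n).card : ℝ) ^ (c - 1) ≤ (2 * ((n : ℝ) * p n)) ^ (c - 1) :=
    pow_le_pow_left₀ (Nat.cast_nonneg _) (h1.card_union h2) _
  have e3 : (n : ℝ) ^ (c - 1) ≤ 2 ^ c * (n.descFactorial c : ℝ) :=
    le_trans (pow_le_pow_right₀ hn (Nat.sub_le _ _)) (half_pow_le h3)
  rw [h1.cardA] at e1
  calc (emb F (bip (A n) (S n)) : ℝ)
      ≤ c * (((l / 2 + 1 : ℕ) : ℝ) * ((A n ∪ S n).card : ℝ) ^ (c - 1)) := e1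
    _ ≤ c * (((l / 2 + 1 : ℕ) : ℝ) * (2 * ((n : ℝ) * p n)) ^ (c - 1)) := by gcongr
    _ = c * ((l / 2 + 1 : ℕ) * 2 ^ (c - 1)) * ((n : ℝ) ^ (c - 1) * p n ^ (c - 1)) := by
        rw [mul_pow, mul_pow]; ring
    _ ≤ c * ((l / 2 + 1 : ℕ) * 2 ^ (c - 1)) *
        ((2 ^ c * (n.descFactorial c : ℝ)) * p n ^ (c - 1)) := by gcongr
    _ = _ := by ring

lemma emb_subsingleton {V W : Type} [Subsingleton V] (F : SimpleGraph V) (H H' : SimpleGraph W) :
    emb F H = emb F H' := by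
  unfold emb
  congr 1
  ext f
  simp only [Set.mem_setOf_eq]
  constructor
  · rintro ⟨h1, -⟩
    exact ⟨h1, fun u v h => absurd (Subsingleton.elim u v) h.ne⟩
  · rintro ⟨h1, -⟩
    exact ⟨h1, fun u v h => absurd (Subsingleton.elim u v) h.ne⟩

lemma bigO_add {f g1 g2 h : ℕ → ℝ} (h1 : g1 =O[atTop] h) (h2 : g2 =O[atTop] h)
    (hf : ∀ n, 0 ≤ f n ∧ f n ≤ g1 n + g2 n) : f =O[atTop] h := by
  refine (IsBigO.of_bound 1 (Filter.Eventually.of_forall fun n => ?_)).trans (h1.add h2)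
  rw [one_mul, Real.norm_of_nonneg (hf n).1, Real.norm_of_nonneg ((hf n).1.trans (hf n).2)]
  exact (hf n).2

lemma condA_plant (hp0 : ∀ n, 0 < p n) (hx : Tendsto (fun n : ℕ => (n : ℝ) * p n) atTop atTop)
    {B : ℝ} {A S : (n : ℕ) → Finset (Fin n)}
    (hg : ∀ᶠ n in atTop, Good l n (p n) B (G n) (A n) (S n)) (hA : CondA p G) :
    CondA p fun n => plant (G n) (A n) (S n) := by
  intro m T hT
  rcases subsingleton_or_nontrivial (Fin m) with hs | hs
  · refine (hA m T hT).congr_left fun n => ?_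
    rw [emb_subsingleton T (G n)]
  · have h2 := embBip_bigO (l := l) (G := G) (F := T) hT.1.preconnected hp0 hx hg
    rw [Fintype.card_fin] at h2
    refine bigO_add (hA m T hT) h2 fun n => ⟨Nat.cast_nonneg _, ?_⟩
    exact_mod_cast emb_plant_le hT.1.preconnected (G n) (A n) (S n)

lemma theta_plant (hl : 3 ≤ l) (hp0 : ∀ n, 0 < p n)
    (hx : Tendsto (fun n : ℕ => (n : ℝ) * p n) atTop atTop)
    {B : ℝ} {A S : (n : ℕ) → Finset (Fin n)}
    (hg : ∀ᶠ n in atTop, Good l n (p n) B (G n) (A n) (S n)) (hT : ThetaBounded l p G) :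
    ThetaBounded l p fun n => plant (G n) (A n) (S n) := by
  intro k hk
  have hpre := theta_preconnected (k := k) (l := l) hk (by omega)
  refine bigO_add (hT k hk) (g2 := fun n => (emb (thetaGraph k l) (bip (A n) (S n)) : ℝ)) ?_
    fun n => ⟨Nat.cast_nonneg _, ?_⟩
  · rcases Nat.lt_or_ge k 2 with h1 | h1
    · have hk1 : k = 1 := by omega
      subst hk1
      haveI : Nontrivial (Bool ⊕ (Fin 1 × Fin (l - 1))) :=
        ⟨Sum.inl false, Sum.inl true, by simp⟩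
      have h2 := embBip_bigO (l := l) (G := G) (F := thetaGraph 1 l) hpre hp0 hx hg
      rw [theta_card] at h2
      have e : 2 + 1 * (l - 1) - 1 = 1 * l := by omega
      rw [e] at h2
      exact h2
    · refine IsBigO.of_bound 1 ?_
      filter_upwards [hg] with n h
      rw [emb_theta_bip h1 (by omega) h.disj (by rw [h.cardA]; omega), Nat.cast_zero, norm_zero,
        one_mul]
      exact norm_nonneg _
  · exact_mod_cast emb_plant_le hpre (G n) (A n) (S n)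

lemma condC_plant {C : ℝ} {κ : I → I → ℝ} (hκ : IsKernel C κ) (hp0 : ∀ n, 0 < p n)
    (hx : Tendsto (fun n : ℕ => (n : ℝ) * p n) atTop atTop) (hp : Tendsto p atTop (𝓝 0))
    {B : ℝ} (hB : 0 < B) {A S : (n : ℕ) → Finset (Fin n)}
    (hg : ∀ᶠ n in atTop, Good l n (p n) B (G n) (A n) (S n)) (hC : CondC κ p G) :
    CondC κ p fun n => plant (G n) (A n) (S n) := by
  set a : ℝ := ((l / 2 + 1 : ℕ) : ℝ) with ha
  have hup : Tendsto (fun n : ℕ => cutDist (G n) (p n) κ + (8 * B * p n + 2 * a * (1 / (n : ℝ))))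
      atTop (𝓝 0) := by
    have h1 : Tendsto (fun n : ℕ => 8 * B * p n + 2 * a * (1 / (n : ℝ))) atTop
        (𝓝 (8 * B * 0 + 2 * a * 0)) :=
      (hp.const_mul _).add (tendsto_one_div_atTop_nhds_zero_nat.const_mul _)
    have h2 := hC.add h1
    simpa using h2
  refine squeeze_zero' (Filter.Eventually.of_forall fun n => cutDist_nonneg _ _ _) ?_ hup
  filter_upwards [hg, hx.eventually_ge_atTop a, eventually_ge_atTop 1] with n h1 h2 h3
  have hpn := hp0 n
  have hn : (0 : ℝ) < n := by exact_mod_cast h3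
  obtain ⟨D, hD1, hD2⟩ := diff_set (G n) h1.cardA h1.cardS h1.low
  refine (cutDist_le h3 (G n) (plant (G n) (A n) (S n)) hpn hκ D hD2).trans ?_
  have hx0 : 0 < (n : ℝ) * p n := by positivity
  have hf := Nat.floor_le hx0.le
  have hDb : (D.card : ℝ) ≤ 8 * B * ((n : ℝ) * p n) ^ 2 + 2 * a * ((n : ℝ) * p n) := by
    refine hD1.trans ?_
    rw [← ha]
    have e1 : ((⌊(n : ℝ) * p n⌋₊ : ℝ) + a) * (2 * B * ((n : ℝ) * p n)) ≤
        (2 * ((n : ℝ) * p n)) * (2 * B * ((n : ℝ) * p n)) := by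
      apply mul_le_mul_of_nonneg_right _ (by positivity)
      linarith
    have ha0 : 0 ≤ a := Nat.cast_nonneg _
    have e2 : a * (⌊(n : ℝ) * p n⌋₊ : ℝ) ≤ a * ((n : ℝ) * p n) :=
      mul_le_mul_of_nonneg_left hf ha0
    nlinarith
  have h5 : (D.card : ℝ) / (p n * (n : ℝ) ^ 2) ≤ 8 * B * p n + 2 * a * (1 / (n : ℝ)) := by
    rw [div_le_iff₀ (by positivity)]
    refine hDb.trans (le_of_eq ?_)
    field_simp
  linarith

end

end Q220.Theta
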