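import Pool.Agent.Q220.Theta.Final

open MeasureTheory Filter Asymptotics
open scoped unitInterval Topology

namespace Q220.Theta

lemma emb_bot {V W : Type} {F : SimpleGraph V} {u v : V} (h : F.Adj u v) :
    emb F (⊥ : SimpleGraph W) = 0 := by
  unfold emb
  have : {f : V → W | Function.Injective f ∧ ∀ u v, F.Adj u v → (⊥ : SimpleGraph W).Adj (f u) (f v)}
      = ∅ := by
    rw [Set.eq_empty_iff_forall_notMem]
    rintro f ⟨-, hf⟩
    exact hf u v h
  rw [this, Set.ncard_empty]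

lemma numPaths_bot {W : Type} (s : ℕ) (u v : W) :
    numPaths (⊥ : SimpleGraph W) (s + 1) u v = 0 := by
  unfold numPaths
  have : {x : Fin (s + 1 + 1) → W | Function.Injective x ∧ x 0 = u ∧ x (Fin.last (s + 1)) = v ∧
      ∀ i : Fin (s + 1), (⊥ : SimpleGraph W).Adj (x i.castSucc) (x i.succ)} = ∅ := by
    rw [Set.eq_empty_iff_forall_notMem]
    rintro f ⟨-, -, -, hf⟩
    exact hf 0
  rw [this, Set.ncard_empty]

/-- The edgeless graphs with the zero kernel satisfy all the hypotheses. -/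
lemma hyp_bot {l : ℕ} (hl : 3 ≤ l) {C : ℝ} (hC : 0 ≤ C) (p : ℕ → ℝ) :
    Hyp C l (fun _ _ => 0) p (fun _ => ⊥) := by
  refine ⟨⟨measurable_const, fun _ _ => rfl, fun _ _ => ⟨le_rfl, hC⟩⟩, ?_, ?_, ?_, ?_⟩
  · intro m T hT
    rcases subsingleton_or_nontrivial (Fin m) with hs | hs
    · have hm : m = 1 := by
        obtain ⟨x⟩ := hT.1.nonempty
        have h1 := Fintype.card_le_one_iff_subsingleton.mpr hs
        rw [Fintype.card_fin] at h1
        have := x.2
        omega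
      subst hm
      refine IsBigO.of_bound 1 (Filter.Eventually.of_forall fun n => ?_)
      rw [Real.norm_of_nonneg (Nat.cast_nonneg _), one_mul]
      simp only [Nat.descFactorial_one, le_refl, Nat.sub_self, pow_zero, mul_one]
      rw [Real.norm_of_nonneg (Nat.cast_nonneg _)]
      have h1 : emb T (⊥ : SimpleGraph (Fin n)) ≤ Nat.card (Fin 1 → Fin n) := by
        unfold emb
        exact Set.ncard_le_card _
      have h2 : Nat.card (Fin 1 → Fin n) = n := by simp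
      rw [h2] at h1
      exact_mod_cast h1
    · obtain ⟨x⟩ := hT.1.nonempty
      obtain ⟨y, hy⟩ := hT.1.preconnected.exists_adj_of_nontrivial x
      simp only [emb_bot hy, Nat.cast_zero]
      exact isBigO_zero _ _
  · obtain ⟨s, rfl⟩ : ∃ s, l = s + 2 := ⟨l - 2, by omega⟩
    have e1 : s + 2 - 1 = s + 1 := by omega
    unfold CondB
    rw [e1]
    simp only [numPaths_bot, Nat.cast_zero, ne_eq, OfNat.ofNat_ne_zero, not_false_eq_true,
      zero_pow, Finset.sum_const_zero]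
    exact isBigO_zero _ _
  · unfold CondC
    simp only [cutDist_bot]
    exact tendsto_const_nhds
  · intro k hk
    have h := theta_adj (k := k) (l := l) ⟨0, hk⟩ (j := 0) (by omega)
    simp only [emb_bot h, Nat.cast_zero]
    exact isBigO_zero _ _

/-- The normalising function `n ^ (δ - 1)`, with value `1` at `n = 0`. -/
noncomputable def pw (δ : ℝ) (n : ℕ) : ℝ := if n = 0 then 1 else (n : ℝ) ^ (δ - 1)

lemma pw_bounds {δ : ℝ} (h1 : δ < 1) (n : ℕ) : 0 < pw δ n ∧ pw δ n ≤ 1 := by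
  unfold pw
  split_ifs with h
  · exact ⟨one_pos, le_rfl⟩
  · have hn : (1 : ℝ) ≤ n := by exact_mod_cast Nat.one_le_iff_ne_zero.mpr h
    exact ⟨Real.rpow_pos_of_pos (by linarith) _,
      Real.rpow_le_one_of_one_le_of_nonpos hn (by linarith)⟩

lemma pw_mul {δ : ℝ} {n : ℕ} (hn : 1 ≤ n) : (n : ℝ) * pw δ n = (n : ℝ) ^ δ := by
  unfold pw
  rw [if_neg (by omega)]
  have hn' : (0 : ℝ) < n := by exact_mod_cast hn
  rw [Real.rpow_sub hn', Real.rpow_one]
  field_simp

lemma pw_tendsto {δ : ℝ} (h0 : 0 < δ) :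
    Tendsto (fun n : ℕ => (n : ℝ) * pw δ n) atTop atTop := by
  have h1 : Tendsto (fun n : ℕ => (n : ℝ) ^ δ) atTop atTop :=
    (tendsto_rpow_atTop h0).comp tendsto_natCast_atTop_atTop
  refine h1.congr' ?_
  filter_upwards [eventually_ge_atTop 1] with n hn
  exact (pw_mul hn).symm

lemma pw_sparse {δ : ℝ} {h : ℕ} : ∀ᶠ n : ℕ in atTop,
    ((n : ℝ) * pw δ n) ^ h ≤ (n : ℝ) ^ (1 - (1 - δ * h)) := by
  filter_upwards [eventually_ge_atTop 1] with n hn
  rw [pw_mul hn, ← Real.rpow_natCast, ← Real.rpow_mul (Nat.cast_nonneg _)]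
  apply le_of_eq
  congr 1
  ring

/-- An unconditional counterexample for every `l ≥ 3` and every `p = n ^ (δ - 1)` with
`0 < δ < 1 / ⌈l / 2⌉`. -/
theorem example_exists {l : ℕ} (hl : 3 ≤ l) {C δ : ℝ} (hC : 0 ≤ C) (h0 : 0 < δ)
    (h1 : δ * ((l + 1) / 2 : ℕ) < 1) :
    ∃ (p : ℕ → ℝ) (G : GraphSeq), (∀ n, 0 < p n ∧ p n ≤ 1) ∧
      (∀ n : ℕ, 1 ≤ n → p n = (n : ℝ) ^ (δ - 1)) ∧ Hyp C l (fun _ _ => 0) p G ∧
      ¬ CondD l p G := by
  have hδ : δ < 1 := by
    have h2 : (1 : ℝ) ≤ ((l + 1) / 2 : ℕ) := by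
      have : 1 ≤ (l + 1) / 2 := by omega
      exact_mod_cast this
    nlinarith
  obtain ⟨G, hG1, hG2⟩ := surgery hl (fun n => (pw_bounds hδ n).1) (pw_tendsto h0)
    (ε := 1 - δ * ((l + 1) / 2 : ℕ)) (by linarith) pw_sparse (hyp_bot hl hC (pw δ))
  refine ⟨pw δ, G, pw_bounds hδ, fun n hn => ?_, hG1, hG2⟩
  unfold pw
  rw [if_neg (by omega)]

end Q220.Theta
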