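import Pool.Agent.Q220.Theta.Defs

namespace Q220.Theta

open Function

variable {V W : Type}

section
variable [DecidableEq W]

/-- The complete bipartite graph between `A` and `S`, all other vertices isolated. -/
def bip (A S : Finset W) : SimpleGraph W := SimpleGraph.fromRel fun x y => x ∈ A ∧ y ∈ S

/-- `G` with all edges meeting `A ∪ S` removed and all edges between `A` and `S` added. -/
def plant (G : SimpleGraph W) (A S : Finset W) : SimpleGraph W :=
  SimpleGraph.fromRel fun x y => (x ∉ A ∪ S ∧ y ∉ A ∪ S ∧ G.Adj x y) ∨ (x ∈ A ∧ y ∈ S)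

lemma bip_adj {A S : Finset W} {x y : W} :
    (bip A S).Adj x y ↔ x ≠ y ∧ ((x ∈ A ∧ y ∈ S) ∨ (y ∈ A ∧ x ∈ S)) := by
  simp [bip]

lemma plant_adj {G : SimpleGraph W} {A S : Finset W} {x y : W} :
    (plant G A S).Adj x y ↔ x ≠ y ∧ ((x ∉ A ∪ S ∧ y ∉ A ∪ S ∧ G.Adj x y) ∨
      (x ∈ A ∧ y ∈ S) ∨ (y ∈ A ∧ x ∈ S)) := by
  simp only [plant, SimpleGraph.fromRel_adj]
  constructor
  · rintro ⟨h, (h1 | h1) | (h1 | h1)⟩
    · exact ⟨h, Or.inl h1⟩
    · exact ⟨h, Or.inr (Or.inl h1)⟩
    · exact ⟨h, Or.inl ⟨h1.2.1, h1.1, h1.2.2.symm⟩⟩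
    · exact ⟨h, Or.inr (Or.inr h1)⟩
  · rintro ⟨h, h1 | h1 | h1⟩
    · exact ⟨h, Or.inl (Or.inl h1)⟩
    · exact ⟨h, Or.inl (Or.inr h1)⟩
    · exact ⟨h, Or.inr (Or.inr h1)⟩

lemma bip_stay {A S : Finset W} {x y : W} (h : (bip A S).Adj x y) :
    x ∈ A ∪ S ∧ y ∈ A ∪ S := by
  rw [bip_adj] at h
  simp only [Finset.mem_union]
  tauto

lemma bip_flip {A S : Finset W} (hd : Disjoint A S) {x y : W} (h : (bip A S).Adj x y) :
    (x ∈ A ↔ y ∉ A) := by
  rw [bip_adj] at h
  have h1 : ∀ z, z ∈ A → z ∉ S := fun z hz hz' => (Finset.disjoint_left.mp hd) hz hz'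
  have := h1 x
  have := h1 y
  tauto

lemma plant_stay {G : SimpleGraph W} {A S : Finset W} {x y : W} (h : (plant G A S).Adj x y) :
    (x ∈ A ∪ S ↔ y ∈ A ∪ S) := by
  rw [plant_adj] at h
  simp only [Finset.mem_union] at h ⊢
  tauto

lemma plant_out {G : SimpleGraph W} {A S : Finset W} {x y : W} (h : (plant G A S).Adj x y)
    (hx : x ∉ A ∪ S) : G.Adj x y := by
  rw [plant_adj] at h
  simp only [Finset.mem_union] at h hx
  tauto

lemma plant_in {G : SimpleGraph W} {A S : Finset W} {x y : W} (h : (plant G A S).Adj x y)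
    (hx : x ∈ A ∪ S) : (bip A S).Adj x y := by
  rw [plant_adj] at h
  rw [bip_adj]
  simp only [Finset.mem_union] at h hx
  tauto

lemma stay_all {F : SimpleGraph V} (hF : F.Preconnected) {H : SimpleGraph W} {U : Finset W}
    (hU : ∀ x y, H.Adj x y → (x ∈ U ↔ y ∈ U)) {f : V → W}
    (hf : ∀ u v, F.Adj u v → H.Adj (f u) (f v)) (x y : V) : f x ∈ U ↔ f y ∈ U := by
  obtain ⟨w⟩ := hF x y
  induction w with
  | nil => rfl
  | cons h _ ih => exact (hU _ _ (hf _ _ h)).trans ih

lemma emb_plant_le [Finite V] [Finite W] {F : SimpleGraph V} (hF : F.Preconnected)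
    (G : SimpleGraph W) (A S : Finset W) :
    emb F (plant G A S) ≤ emb F G + emb F (bip A S) := by
  classical
  unfold emb
  refine le_trans (Set.ncard_le_ncard (t := _ ∪ _) ?_ (Set.toFinite _)) (Set.ncard_union_le _ _)
  rintro f ⟨hi, hf⟩
  by_cases h : ∃ x, f x ∈ A ∪ S
  · right
    obtain ⟨x, hx⟩ := h
    refine ⟨hi, fun u v huv => plant_in (hf u v huv) ?_⟩
    exact (stay_all hF (fun _ _ h => plant_stay h) hf x u).1 hx
  · left
    push Not at h
    exact ⟨hi, fun u v huv => plant_out (hf u v huv) (h u)⟩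

lemma seq_stay {t : ℕ} {H : SimpleGraph W} {U : Finset W}
    (hU : ∀ x y, H.Adj x y → (x ∈ U ↔ y ∈ U)) {x : Fin (t + 1) → W}
    (hx : ∀ i : Fin t, H.Adj (x i.castSucc) (x i.succ)) (i : Fin (t + 1)) :
    x i ∈ U ↔ x 0 ∈ U := by
  induction i using Fin.induction with
  | zero => rfl
  | succ i ih => exact (hU _ _ (hx i)).symm.trans ih

lemma numPaths_plant_le [Finite W] (G : SimpleGraph W) (A S : Finset W) (t : ℕ) (u v : W) :
    numPaths (plant G A S) t u v ≤ numPaths G t u v + numPaths (bip A S) t u v := by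
  classical
  unfold numPaths
  refine le_trans (Set.ncard_le_ncard (t := _ ∪ _) ?_ (Set.toFinite _)) (Set.ncard_union_le _ _)
  rintro x ⟨hi, h0, h1, hx⟩
  by_cases h : x 0 ∈ A ∪ S
  · right
    exact ⟨hi, h0, h1, fun i => plant_in (hx i) ((seq_stay (fun _ _ h => plant_stay h) hx _).2 h)⟩
  · left
    exact ⟨hi, h0, h1, fun i => plant_out (hx i)
      (fun h' => h ((seq_stay (fun _ _ h => plant_stay h) hx _).1 h'))⟩

lemma bip_mem_all [Nontrivial V] {F : SimpleGraph V} (hF : F.Preconnected) {A S : Finset W}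
    {f : V → W} (hf : ∀ u v, F.Adj u v → (bip A S).Adj (f u) (f v)) (x : V) : f x ∈ A ∪ S := by
  obtain ⟨y, hy⟩ := hF.exists_adj_of_nontrivial x
  exact (bip_stay (hf _ _ hy)).1

lemma exists_mem_left [Nontrivial V] {F : SimpleGraph V} (hF : F.Preconnected) {A S : Finset W}
    {f : V → W} (hf : ∀ u v, F.Adj u v → (bip A S).Adj (f u) (f v)) : ∃ x, f x ∈ A := by
  obtain ⟨x⟩ := (inferInstance : Nonempty V)
  obtain ⟨y, hy⟩ := hF.exists_adj_of_nontrivial x
  have := hf _ _ hy
  rw [bip_adj] at this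
  rcases this.2 with h | h
  · exact ⟨x, h.1⟩
  · exact ⟨y, h.1⟩

lemma emb_bip_le [Fintype V] [Nontrivial V] [Fintype W] {F : SimpleGraph V} (hF : F.Preconnected)
    (A S : Finset W) :
    emb F (bip A S) ≤ Fintype.card V * (A.card * (A ∪ S).card ^ (Fintype.card V - 1)) := by
  classical
  unfold emb
  have hsub : {f : V → W | Injective f ∧ ∀ u v, F.Adj u v → (bip A S).Adj (f u) (f v)} ⊆
      ((Finset.univ : Finset V).biUnion fun v =>
        Fintype.piFinset fun w => if w = v then A else A ∪ S : Finset (V → W)) := by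
    rintro f ⟨-, hf⟩
    obtain ⟨v, hv⟩ := exists_mem_left hF hf
    simp only [Finset.coe_biUnion, Set.mem_iUnion, Finset.mem_coe, Finset.mem_univ, true_and]
    refine ⟨v, trivial, ?_⟩
    rw [Fintype.mem_piFinset]
    intro w
    by_cases h : w = v
    · subst h; simpa using hv
    · rw [if_neg h]; exact bip_mem_all hF hf w
  refine le_trans (Set.ncard_le_ncard hsub (Finset.finite_toSet _)) ?_
  rw [Set.ncard_coe_finset]
  refine le_trans Finset.card_biUnion_le ?_
  have : ∀ v : V, (Fintype.piFinset fun w => if w = v then A else A ∪ S).card =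
      A.card * (A ∪ S).card ^ (Fintype.card V - 1) := by
    intro v
    rw [Fintype.card_piFinset, ← Finset.mul_prod_erase Finset.univ _ (Finset.mem_univ v)]
    congr 1
    · simp
    · rw [Finset.prod_congr rfl (g := fun _ => (A ∪ S).card)]
      · rw [Finset.prod_const, Finset.card_erase_of_mem (Finset.mem_univ v), Finset.card_univ]
      · intro w hw
        rw [if_neg (Finset.ne_of_mem_erase hw)]
  rw [Finset.sum_congr rfl (fun v _ => this v), Finset.sum_const, Finset.card_univ, smul_eq_mul]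

lemma numPaths_bip_le [Fintype W] (A S : Finset W) (s : ℕ) (u v : W) :
    numPaths (bip A S) (s + 1) u v ≤ (A ∪ S).card ^ s := by
  classical
  unfold numPaths
  have hsub : {x : Fin (s + 1 + 1) → W | Injective x ∧ x 0 = u ∧ x (Fin.last (s + 1)) = v ∧
      ∀ i : Fin (s + 1), (bip A S).Adj (x i.castSucc) (x i.succ)} ⊆
      (Fintype.piFinset (fun w : Fin (s + 1 + 1) => if w = 0 then {u} else
        if w = Fin.last (s + 1) then {v} else A ∪ S) : Finset (Fin (s + 1 + 1) → W)) := by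
    rintro x ⟨-, h0, h1, hx⟩
    rw [Finset.mem_coe, Fintype.mem_piFinset]
    intro w
    split_ifs with ha hb
    · subst ha; simp [h0]
    · subst hb; simp [h1]
    · obtain ⟨j, rfl⟩ := Fin.exists_succ_eq.mpr ha
      exact (bip_stay (hx j)).2
  refine le_trans (Set.ncard_le_ncard hsub (Finset.finite_toSet _)) ?_
  rw [Set.ncard_coe_finset, Fintype.card_piFinset, Fin.prod_univ_succ, Fin.prod_univ_castSucc]
  have h1 : ∀ i : Fin s, (if (i.castSucc.succ : Fin (s + 1 + 1)) = 0 then ({u} : Finset W) else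
      if (i.castSucc.succ : Fin (s + 1 + 1)) = Fin.last (s + 1) then {v} else A ∪ S).card =
      (A ∪ S).card := by
    intro i
    rw [if_neg (Fin.succ_ne_zero _), if_neg]
    intro h
    have := congrArg Fin.val h
    simp at this
    omega
  rw [Finset.prod_congr rfl (fun i _ => h1 i)]
  have h2 : (Fin.last s).succ = Fin.last (s + 1) := rfl
  rw [h2]
  simp

lemma numPaths_bip_eq_zero [Fintype W] (A S : Finset W) (s : ℕ) (u v : W)
    (h : u ∉ A ∪ S ∨ v ∉ A ∪ S) : numPaths (bip A S) (s + 1) u v = 0 := by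
  unfold numPaths
  rw [Set.ncard_eq_zero (Set.toFinite _)]
  ext x
  simp only [Set.mem_setOf_eq, Set.mem_empty_iff_false, iff_false]
  rintro ⟨-, h0, h1, hx⟩
  rcases h with h | h
  · apply h
    have := (bip_stay (hx 0)).1
    rw [← h0]; exact this
  · apply h
    have := (bip_stay (hx (Fin.last s))).2
    rw [← h1]; exact this

end

end Q220.Theta
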