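import Pool.Agent.Q220.Theta.Defs

open MeasureTheory Filter
open scoped unitInterval Topology ENNReal

namespace Q220.Theta

/-- The points of `[0,1]` that belong to vertex `i`. -/
def cell (n : ℕ) (i : Fin n) : Set I := {x | ⌈(n : ℝ) * (x : ℝ)⌉ = (i : ℤ) + 1}

lemma measurable_vtx (n : ℕ) : Measurable fun x : I => ⌈(n : ℝ) * (x : ℝ)⌉ :=
  Int.measurable_ceil.comp (measurable_subtype_coe.const_mul _)

lemma measurableSet_cell (n : ℕ) (i : Fin n) : MeasurableSet (cell n i) :=
  measurable_vtx n (measurableSet_singleton _)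

lemma volume_cell_le {n : ℕ} (hn : 0 < n) (i : Fin n) :
    (volume : Measure I) (cell n i) ≤ ENNReal.ofReal (1 / n) := by
  have hn' : (0 : ℝ) < n := by exact_mod_cast hn
  rw [unitInterval.volume_apply]
  have hsub : Subtype.val '' (cell n i) ⊆ Set.Ioc ((i : ℝ) / n) (((i : ℝ) + 1) / n) := by
    rintro _ ⟨x, hx, rfl⟩
    have h := Int.ceil_eq_iff.mp hx
    push_cast at h
    constructor
    · rw [div_lt_iff₀ hn']; nlinarith [h.1]
    · rw [le_div_iff₀ hn']; nlinarith [h.2]
  refine (measure_mono hsub).trans ?_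
  rw [Real.volume_Ioc]
  apply ENNReal.ofReal_le_ofReal
  field_simp
  linarith

lemma measurable_graphKernel {n : ℕ} (G : SimpleGraph (Fin n)) (p : ℝ) :
    Measurable fun z : I × I => graphKernel G p z.1 z.2 := by
  classical
  let g : ℤ × ℤ → ℝ := fun z => if ∃ i j : Fin n, G.Adj i j ∧ z.1 = (i : ℤ) + 1 ∧
    z.2 = (j : ℤ) + 1 then 1 / p else 0
  have hg : Measurable g := measurable_of_countable g
  have h2 : Measurable fun z : I × I =>
      ((⌈(n : ℝ) * (z.1 : ℝ)⌉, ⌈(n : ℝ) * (z.2 : ℝ)⌉) : ℤ × ℤ) :=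
    ((measurable_vtx n).comp measurable_fst).prodMk ((measurable_vtx n).comp measurable_snd)
  exact hg.comp h2

lemma graphKernel_bound {n : ℕ} (G : SimpleGraph (Fin n)) {p : ℝ} (hp : 0 < p) (x y : I) :
    0 ≤ graphKernel G p x y ∧ graphKernel G p x y ≤ 1 / p := by
  unfold graphKernel
  have : 0 < 1 / p := by positivity
  split_ifs
  · exact ⟨this.le, le_rfl⟩
  · exact ⟨le_rfl, this.le⟩

lemma graphKernel_diff {n : ℕ} (G G' : SimpleGraph (Fin n)) {p : ℝ} (hp : 0 < p)
    (D : Finset (Fin n × Fin n)) (hD : ∀ i j, (G.Adj i j ↔ G'.Adj i j) ∨ (i, j) ∈ D) (x y : I)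
    (h : ∀ ij ∈ D, ¬ (x ∈ cell n ij.1 ∧ y ∈ cell n ij.2)) :
    graphKernel G' p x y = graphKernel G p x y := by
  unfold graphKernel
  have : (∃ i j : Fin n, G'.Adj i j ∧ ⌈(n : ℝ) * (x : ℝ)⌉ = (i : ℤ) + 1 ∧
    ⌈(n : ℝ) * (y : ℝ)⌉ = (j : ℤ) + 1) ↔ (∃ i j : Fin n, G.Adj i j ∧
      ⌈(n : ℝ) * (x : ℝ)⌉ = (i : ℤ) + 1 ∧ ⌈(n : ℝ) * (y : ℝ)⌉ = (j : ℤ) + 1) := by
    constructor
    · rintro ⟨i, j, h1, h2, h3⟩
      rcases hD i j with h4 | h4
      · exact ⟨i, j, h4.2 h1, h2, h3⟩
      · exact absurd ⟨h2, h3⟩ (h _ h4)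
    · rintro ⟨i, j, h1, h2, h3⟩
      rcases hD i j with h4 | h4
      · exact ⟨i, j, h4.1 h1, h2, h3⟩
      · exact absurd ⟨h2, h3⟩ (h _ h4)
  by_cases hc : ∃ i j : Fin n, G.Adj i j ∧ ⌈(n : ℝ) * (x : ℝ)⌉ = (i : ℤ) + 1 ∧
    ⌈(n : ℝ) * (y : ℝ)⌉ = (j : ℤ) + 1
  · rw [if_pos hc, if_pos (this.2 hc)]
  · rw [if_neg hc, if_neg (fun h => hc (this.1 h))]

/-- Bounded measurable functions on the unit square are integrable. -/
lemma integrable_of_bound {f : I × I → ℝ} (hf : Measurable f) {M : ℝ} (hM : ∀ z, |f z| ≤ M) :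
    Integrable f ((volume : Measure I).prod volume) :=
  Integrable.of_bound hf.aestronglyMeasurable M (Filter.Eventually.of_forall hM)

lemma cutTerm_eq {W : I → I → ℝ} (hW : Measurable (Function.uncurry W)) {M : ℝ}
    (hM : ∀ x y, |W x y| ≤ M) (S T : Set I) :
    ∫ x in S, ∫ y in T, W x y = ∫ z in S ×ˢ T, Function.uncurry W z ∂((volume : Measure I).prod volume) := by
  rw [setIntegral_prod]
  · rfl
  · exact (integrable_of_bound hW (M := M) (fun z => hM z.1 z.2)).integrableOn

lemma cutTerm_le {W : I → I → ℝ} (hW : Measurable (Function.uncurry W)) {M : ℝ}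
    (hM : ∀ x y, |W x y| ≤ M) (S T : Set I) : |∫ x in S, ∫ y in T, W x y| ≤ M := by
  rw [cutTerm_eq hW hM]
  have h0 : 0 ≤ M := le_trans (abs_nonneg _) (hM 0 0)
  have := norm_setIntegral_le_of_norm_le_const (μ := (volume : Measure I).prod volume)
    (s := S ×ˢ T) (f := Function.uncurry W) (C := M) (measure_lt_top _ _) (fun z _ => hM z.1 z.2)
  rw [Real.norm_eq_abs] at this
  refine this.trans ?_
  have h1 : ((volume : Measure I).prod volume).real (S ×ˢ T) ≤ 1 := measureReal_le_one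
  nlinarith

lemma bddAbove_cut {W : I → I → ℝ} (hW : Measurable (Function.uncurry W)) {M : ℝ}
    (hM : ∀ x y, |W x y| ≤ M) :
    BddAbove (Set.range fun ST : {S : Set I // MeasurableSet S} × {T : Set I // MeasurableSet T} =>
      |∫ x in ST.1.1, ∫ y in ST.2.1, W x y|) := by
  refine ⟨M, ?_⟩
  rintro _ ⟨ST, rfl⟩
  exact cutTerm_le hW hM _ _

lemma cutNorm_nonneg (W : I → I → ℝ) : 0 ≤ cutNorm W :=
  Real.iSup_nonneg fun _ => abs_nonneg _

lemma cutNorm_le_add {W W' : I → I → ℝ} (hW : Measurable (Function.uncurry W))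
    (hW' : Measurable (Function.uncurry W')) {M M' : ℝ} (hM : ∀ x y, |W x y| ≤ M)
    (hM' : ∀ x y, |W' x y| ≤ M') {δ : ℝ}
    (hδ : ∫ z, |Function.uncurry W' z - Function.uncurry W z| ∂((volume : Measure I).prod volume) ≤ δ) :
    cutNorm W' ≤ cutNorm W + δ := by
  haveI : Nonempty ({S : Set I // MeasurableSet S} × {T : Set I // MeasurableSet T}) :=
    ⟨(⟨∅, MeasurableSet.empty⟩, ⟨∅, MeasurableSet.empty⟩)⟩
  unfold cutNorm
  refine ciSup_le fun ST => ?_
  have h1 := le_ciSup (bddAbove_cut hW hM) ST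
  refine le_trans ?_ (add_le_add_left h1 δ)
  rw [cutTerm_eq hW hM, cutTerm_eq hW' hM']
  set μ := (volume : Measure I).prod (volume : Measure I) with hμ
  have i1 : Integrable (Function.uncurry W) μ := integrable_of_bound hW (fun z => hM z.1 z.2)
  have i2 : Integrable (Function.uncurry W') μ := integrable_of_bound hW' (fun z => hM' z.1 z.2)
  set R := ST.1.1 ×ˢ ST.2.1
  have h2 : ∫ z in R, Function.uncurry W' z ∂μ = ∫ z in R, Function.uncurry W z ∂μ +
      ∫ z in R, (Function.uncurry W' z - Function.uncurry W z) ∂μ := by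
    rw [integral_sub i2.integrableOn i1.integrableOn]; ring
  rw [h2]
  refine (abs_add_le _ _).trans ?_
  have h3 : |∫ z in R, (Function.uncurry W' z - Function.uncurry W z) ∂μ| ≤
      ∫ z in R, |Function.uncurry W' z - Function.uncurry W z| ∂μ := by
    have := norm_integral_le_integral_norm (μ := μ.restrict R)
      (fun z => Function.uncurry W' z - Function.uncurry W z)
    simpa [Real.norm_eq_abs] using this
  have h4 : ∫ z in R, |Function.uncurry W' z - Function.uncurry W z| ∂μ ≤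
      ∫ z, |Function.uncurry W' z - Function.uncurry W z| ∂μ :=
    setIntegral_le_integral (i2.sub i1).abs (Filter.Eventually.of_forall fun _ => abs_nonneg _)
  linarith

lemma diff_integral_le {n : ℕ} (hn : 0 < n) (G G' : SimpleGraph (Fin n)) {p : ℝ} (hp : 0 < p)
    (D : Finset (Fin n × Fin n)) (hD : ∀ i j, (G.Adj i j ↔ G'.Adj i j) ∨ (i, j) ∈ D) :
    ∫ z, |graphKernel G' p z.1 z.2 - graphKernel G p z.1 z.2|
      ∂((volume : Measure I).prod volume) ≤ (D.card : ℝ) / (p * (n : ℝ) ^ 2) := by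
  classical
  have hn' : (0 : ℝ) < n := by exact_mod_cast hn
  set μ := (volume : Measure I).prod (volume : Measure I) with hμ
  let E : Set (I × I) := ⋃ ij ∈ D, cell n ij.1 ×ˢ cell n ij.2
  have hEm : MeasurableSet E := D.measurableSet_biUnion fun ij _ =>
    (measurableSet_cell n ij.1).prod (measurableSet_cell n ij.2)
  have hpt : ∀ z : I × I, |graphKernel G' p z.1 z.2 - graphKernel G p z.1 z.2| ≤
      E.indicator (fun _ => 1 / p) z := by
    intro z
    by_cases hz : z ∈ E
    · rw [Set.indicator_of_mem hz]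
      have h1 := graphKernel_bound G hp z.1 z.2
      have h2 := graphKernel_bound G' hp z.1 z.2
      rw [abs_le]
      constructor <;> linarith
    · rw [Set.indicator_of_notMem hz, graphKernel_diff G G' hp D hD, sub_self, abs_zero]
      intro ij hij h
      exact hz (Set.mem_biUnion hij ⟨h.1, h.2⟩)
  have hmE : μ E ≤ ENNReal.ofReal ((D.card : ℝ) / (n : ℝ) ^ 2) := by
    refine (measure_biUnion_finset_le _ _).trans ?_
    have : ∀ ij ∈ D, μ (cell n ij.1 ×ˢ cell n ij.2) ≤ ENNReal.ofReal (1 / (n : ℝ) ^ 2) := by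
      intro ij _
      rw [Measure.prod_prod]
      refine (mul_le_mul' (volume_cell_le hn _) (volume_cell_le hn _)).trans ?_
      rw [← ENNReal.ofReal_mul (by positivity)]
      apply ENNReal.ofReal_le_ofReal
      apply le_of_eq
      field_simp
    refine (Finset.sum_le_sum this).trans ?_
    rw [Finset.sum_const, nsmul_eq_mul, ← ENNReal.ofReal_natCast, ← ENNReal.ofReal_mul (by positivity)]
    apply ENNReal.ofReal_le_ofReal
    apply le_of_eq
    ring
  have i1 : Integrable (E.indicator fun _ : I × I => 1 / p) μ :=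
    (integrable_const _).indicator hEm
  have hmeas : Measurable fun z : I × I => |graphKernel G' p z.1 z.2 - graphKernel G p z.1 z.2| :=
    ((measurable_graphKernel G' p).sub (measurable_graphKernel G p)).abs
  have hb : ∀ z : I × I, |(|graphKernel G' p z.1 z.2 - graphKernel G p z.1 z.2|)| ≤ 1 / p := by
    intro z
    rw [abs_abs, abs_le]
    have h1 := graphKernel_bound G hp z.1 z.2
    have h2 := graphKernel_bound G' hp z.1 z.2
    constructor <;> linarith
  refine (integral_mono (integrable_of_bound hmeas hb) i1 hpt).trans ?_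
  rw [integral_indicator hEm, setIntegral_const, smul_eq_mul]
  have h5 : μ.real E ≤ (D.card : ℝ) / (n : ℝ) ^ 2 := by
    unfold Measure.real
    exact ENNReal.toReal_le_of_le_ofReal (by positivity) hmE
  have h6 : (D.card : ℝ) / (p * (n : ℝ) ^ 2) = (D.card : ℝ) / (n : ℝ) ^ 2 * (1 / p) := by
    field_simp
  rw [h6]
  exact mul_le_mul_of_nonneg_right h5 (by positivity)

lemma cutDist_nonneg {n : ℕ} (G : SimpleGraph (Fin n)) (p : ℝ) (κ : I → I → ℝ) :
    0 ≤ cutDist G p κ :=
  Real.iInf_nonneg fun _ => cutNorm_nonneg _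

lemma cutDist_le {n : ℕ} (hn : 0 < n) (G G' : SimpleGraph (Fin n)) {p : ℝ} (hp : 0 < p) {C : ℝ}
    {κ : I → I → ℝ} (hκ : IsKernel C κ) (D : Finset (Fin n × Fin n))
    (hD : ∀ i j, (G.Adj i j ↔ G'.Adj i j) ∨ (i, j) ∈ D) :
    cutDist G' p κ ≤ cutDist G p κ + (D.card : ℝ) / (p * (n : ℝ) ^ 2) := by
  haveI : Nonempty {φ : I ≃ᵐ I // MeasurePreserving φ (volume : Measure I) volume} :=
    ⟨⟨MeasurableEquiv.refl I, MeasurePreserving.id _⟩⟩
  have key : ∀ φ : {φ : I ≃ᵐ I // MeasurePreserving φ (volume : Measure I) volume},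
      cutNorm (fun x y => graphKernel G' p x y - κ (φ.1 x) (φ.1 y)) ≤
      cutNorm (fun x y => graphKernel G p x y - κ (φ.1 x) (φ.1 y)) +
        (D.card : ℝ) / (p * (n : ℝ) ^ 2) := by
    intro φ
    have hκm : Measurable fun z : I × I => κ (φ.1 z.1) (φ.1 z.2) :=
      hκ.1.comp ((φ.1.measurable.comp measurable_fst).prodMk (φ.1.measurable.comp measurable_snd))
    have hb : ∀ (H : SimpleGraph (Fin n)) (x y : I),
        |graphKernel H p x y - κ (φ.1 x) (φ.1 y)| ≤ 1 / p + C := by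
      intro H x y
      have h1 := graphKernel_bound H hp x y
      have h2 := hκ.2.2 (φ.1 x) (φ.1 y)
      have h3 : 0 ≤ 1 / p := by positivity
      rw [abs_le]
      constructor <;> linarith
    refine cutNorm_le_add (M := 1 / p + C) (M' := 1 / p + C) ?_ ?_ (hb G) (hb G') ?_
    · exact (measurable_graphKernel G p).sub hκm
    · exact (measurable_graphKernel G' p).sub hκm
    · refine le_trans (le_of_eq ?_) (diff_integral_le hn G G' hp D hD)
      congr 1
      ext z
      simp only [Function.uncurry]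
      congr 1
      ring
  unfold cutDist
  rw [← sub_le_iff_le_add]
  refine le_ciInf fun φ => ?_
  rw [sub_le_iff_le_add]
  refine le_trans (ciInf_le ⟨0, ?_⟩ φ) (key φ)
  rintro _ ⟨ψ, rfl⟩
  exact cutNorm_nonneg _

/-- The edgeless graph is at cut distance `0` from the zero kernel. -/
lemma cutDist_bot {n : ℕ} (p : ℝ) : cutDist (⊥ : SimpleGraph (Fin n)) p (fun _ _ => 0) = 0 := by
  have h : ∀ x y, graphKernel (⊥ : SimpleGraph (Fin n)) p x y = 0 := by
    intro x y
    unfold graphKernel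
    rw [if_neg]
    rintro ⟨i, j, h, -⟩
    exact h
  haveI : Nonempty {φ : I ≃ᵐ I // MeasurePreserving φ (volume : Measure I) volume} :=
    ⟨⟨MeasurableEquiv.refl I, MeasurePreserving.id _⟩⟩
  haveI : Nonempty ({S : Set I // MeasurableSet S} × {T : Set I // MeasurableSet T}) :=
    ⟨(⟨∅, MeasurableSet.empty⟩, ⟨∅, MeasurableSet.empty⟩)⟩
  unfold cutDist cutNorm
  simp [h]

end Q220.Theta
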