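import Mathlib

/-!
Definitions for sparse graph limits in the sense of Bollobas and Riordan: labelled embeddings,
path counts, theta graphs, the cut distance between a graph and a kernel, and the four
conditions (A), (B), (C), (D).
-/

open MeasureTheory Filter Asymptotics
open scoped unitInterval Topology

namespace Q220.Theta

/-- `emb F G`: the number of injective homomorphisms from `F` to `G`. -/
noncomputable def emb {V W : Type} (F : SimpleGraph V) (G : SimpleGraph W) : ℕ :=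
  {f : V → W | Function.Injective f ∧ ∀ u v, F.Adj u v → G.Adj (f u) (f v)}.ncard

/-- `numPaths G t u v`: the number of paths of length `t` from `u` to `v`, that is of sequences of
distinct vertices `u = x_0, x_1, ..., x_t = v` in which consecutive vertices are adjacent. -/
noncomputable def numPaths {W : Type} (G : SimpleGraph W) (t : ℕ) (u v : W) : ℕ :=
  {x : Fin (t + 1) → W | Function.Injective x ∧ x 0 = u ∧ x (Fin.last t) = v ∧
    ∀ i : Fin t, G.Adj (x i.castSucc) (x i.succ)}.ncard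

/-- The `j`-th point (`0 ≤ j ≤ l`) of the `i`-th path of the theta graph `H_{k,l}`; the two end
points `Sum.inl false` and `Sum.inl true` are common to the `k` paths, the `l - 1` inner points
`Sum.inr (i, _)` of the `i`-th path are its own. -/
def thetaPt (k l : ℕ) (i : Fin k) (j : ℕ) : Bool ⊕ (Fin k × Fin (l - 1)) :=
  if j = 0 then Sum.inl false
  else if h : j - 1 < l - 1 then Sum.inr (i, ⟨j - 1, h⟩)
  else Sum.inl true

/-- The theta graph `H_{k,l}`: `k` internally disjoint paths of length `l` joining the same two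
vertices. It has `2 + k (l - 1)` vertices and, for `l ≥ 2`, `k l` edges. -/
def thetaGraph (k l : ℕ) : SimpleGraph (Bool ⊕ (Fin k × Fin (l - 1))) :=
  SimpleGraph.fromRel fun x y => ∃ (i : Fin k) (j : ℕ), j < l ∧ x = thetaPt k l i j ∧
    y = thetaPt k l i (j + 1)

/-- The kernel `κ_G` of a graph on `n` vertices with normalising number `p`: at `(x, y)` it is
`1/p` if the vertices number `⌈n x⌉` and `⌈n y⌉` are adjacent, and `0` otherwise (the vertices are
`0, ..., n-1`, vertex `i` has number `i + 1`). -/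
noncomputable def graphKernel {n : ℕ} (G : SimpleGraph (Fin n)) (p : ℝ) (x y : I) : ℝ :=
  open Classical in
  if ∃ i j : Fin n, G.Adj i j ∧ ⌈(n : ℝ) * (x : ℝ)⌉ = (i : ℤ) + 1 ∧
    ⌈(n : ℝ) * (y : ℝ)⌉ = (j : ℤ) + 1 then 1 / p else 0

/-- The cut norm: the supremum of `|∫_{S × T} W|` over measurable `S, T ⊆ [0,1]`. -/
noncomputable def cutNorm (W : I → I → ℝ) : ℝ :=
  ⨆ ST : {S : Set I // MeasurableSet S} × {T : Set I // MeasurableSet T},
    |∫ x in ST.1.1, ∫ y in ST.2.1, W x y|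

/-- The cut distance between a graph (normalised by `p`) and a kernel: the infimum of the cut norm
of `κ_G - κ^φ` over all measure-preserving bijections `φ` of `[0,1]`. -/
noncomputable def cutDist {n : ℕ} (G : SimpleGraph (Fin n)) (p : ℝ) (κ : I → I → ℝ) : ℝ :=
  ⨅ φ : {φ : I ≃ᵐ I // MeasurePreserving φ volume volume},
    cutNorm fun x y => graphKernel G p x y - κ (φ.1 x) (φ.1 y)

/-- A sequence of graphs, the `n`-th one on `n` vertices. -/
abbrev GraphSeq := (n : ℕ) → SimpleGraph (Fin n)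

/-- (A): `sup_n s_p(T, G_n) < ∞` for every tree `T`, where
`s_p(T, G_n) = emb(T, G_n) / (n_(m) p^(m-1))` for a tree with `m` vertices. -/
def CondA (p : ℕ → ℝ) (G : GraphSeq) : Prop :=
  ∀ (m : ℕ) (T : SimpleGraph (Fin m)), T.IsTree →
    (fun n : ℕ => (emb T (G n) : ℝ)) =O[atTop] fun n : ℕ => (n.descFactorial m : ℝ) * p n ^ (m - 1)

/-- (B): `∑_u ∑_{v ≠ u} p_{l-1}(u,v)^2 = O(n^(2l-2) p^(2l-2))`. -/
def CondB (l : ℕ) (p : ℕ → ℝ) (G : GraphSeq) : Prop :=
  (fun n : ℕ => ∑ u : Fin n, ∑ v ∈ Finset.univ.erase u, (numPaths (G n) (l - 1) u v : ℝ) ^ 2)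
    =O[atTop] fun n : ℕ => (n : ℝ) ^ (2 * l - 2) * p n ^ (2 * l - 2)

/-- `κ` is a kernel with values in `[0, C]`: a symmetric measurable function on `[0,1]^2`. -/
def IsKernel (C : ℝ) (κ : I → I → ℝ) : Prop :=
  Measurable (Function.uncurry κ) ∧ (∀ x y, κ x y = κ y x) ∧ ∀ x y, 0 ≤ κ x y ∧ κ x y ≤ C

/-- (C) for a given kernel: `d_cut(G_n, κ) → 0`. -/
def CondC (κ : I → I → ℝ) (p : ℕ → ℝ) (G : GraphSeq) : Prop :=
  Tendsto (fun n : ℕ => cutDist (G n) (p n) κ) atTop (𝓝 0)

/-- `s_p(H_{k,l}, G_n) = O(1)` for every fixed `k ≥ 1`. -/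
def ThetaBounded (l : ℕ) (p : ℕ → ℝ) (G : GraphSeq) : Prop :=
  ∀ k : ℕ, 1 ≤ k → (fun n : ℕ => (emb (thetaGraph k l) (G n) : ℝ)) =O[atTop]
    fun n : ℕ => (n.descFactorial (2 + k * (l - 1)) : ℝ) * p n ^ (k * l)

/-- (D): `∑_u ∑_{v ≠ u} p_l(u,v)^k = O(n^(2+k(l-1)) p^(kl))` for every fixed `k ≥ 1`. -/
def CondD (l : ℕ) (p : ℕ → ℝ) (G : GraphSeq) : Prop :=
  ∀ k : ℕ, 1 ≤ k →
    (fun n : ℕ => ∑ u : Fin n, ∑ v ∈ Finset.univ.erase u, (numPaths (G n) l u v : ℝ) ^ k)
      =O[atTop] fun n : ℕ => (n : ℝ) ^ (2 + k * (l - 1)) * p n ^ (k * l)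

/-- All the hypotheses of the question: `κ` is a kernel with values in `[0, C]`, (A), (B), (C) and
bounded theta densities. -/
structure Hyp (C : ℝ) (l : ℕ) (κ : I → I → ℝ) (p : ℕ → ℝ) (G : GraphSeq) : Prop where
  kernel : IsKernel C κ
  trees : CondA p G
  paths : CondB l p G
  cut : CondC κ p G
  theta : ThetaBounded l p G

end Q220.Theta
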