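import Pool.Agent.Q220.Theta.Asymp

open MeasureTheory Filter Asymptotics
open scoped unitInterval Topology

namespace Q220.Theta

section
variable {p : ℕ → ℝ} {G : GraphSeq} {l : ℕ}

lemma sum_bip_sq {n : ℕ} (A S : Finset (Fin n)) (s : ℕ) :
    ∑ u : Fin n, ∑ v ∈ Finset.univ.erase u, (numPaths (bip A S) (s + 1) u v : ℝ) ^ 2 ≤
      ((A ∪ S).card : ℝ) ^ (2 * s + 2) := by
  classical
  calc ∑ u : Fin n, ∑ v ∈ Finset.univ.erase u, (numPaths (bip A S) (s + 1) u v : ℝ) ^ 2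
      ≤ ∑ u : Fin n, ∑ v : Fin n, (numPaths (bip A S) (s + 1) u v : ℝ) ^ 2 :=
        Finset.sum_le_sum fun u _ => Finset.sum_le_sum_of_subset_of_nonneg
          (Finset.subset_univ _) fun _ _ _ => sq_nonneg _
    _ ≤ ∑ u : Fin n, ∑ v : Fin n, (if u ∈ A ∪ S then (if v ∈ A ∪ S then
        (((A ∪ S).card : ℝ) ^ s) ^ 2 else 0) else 0) := by
        refine Finset.sum_le_sum fun u _ => Finset.sum_le_sum fun v _ => ?_
        split_ifs with h1 h2
        · have : (numPaths (bip A S) (s + 1) u v : ℝ) ≤ ((A ∪ S).card : ℝ) ^ s := by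
            exact_mod_cast numPaths_bip_le A S s u v
          exact pow_le_pow_left₀ (Nat.cast_nonneg _) this 2
        · rw [numPaths_bip_eq_zero A S s u v (Or.inr h2)]; simp
        · rw [numPaths_bip_eq_zero A S s u v (Or.inl h1)]; simp
    _ = _ := by
        have : ∀ u : Fin n, (∑ v : Fin n, (if u ∈ A ∪ S then (if v ∈ A ∪ S then
            (((A ∪ S).card : ℝ) ^ s) ^ 2 else 0) else 0)) =
            if u ∈ A ∪ S then ((A ∪ S).card : ℝ) * (((A ∪ S).card : ℝ) ^ s) ^ 2 else 0 := by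
          intro u
          split_ifs with h
          · rw [Finset.sum_ite_mem, Finset.univ_inter, Finset.sum_const, nsmul_eq_mul]
          · simp
        rw [Finset.sum_congr rfl fun u _ => this u, Finset.sum_ite_mem, Finset.univ_inter,
          Finset.sum_const, nsmul_eq_mul]
        ring

lemma condB_plant (hl : 3 ≤ l) (hp0 : ∀ n, 0 < p n)
    (hx : Tendsto (fun n : ℕ => (n : ℝ) * p n) atTop atTop)
    {B : ℝ} {A S : (n : ℕ) → Finset (Fin n)}
    (hg : ∀ᶠ n in atTop, Good l n (p n) B (G n) (A n) (S n)) (hP : CondB l p G) :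
    CondB l p fun n => plant (G n) (A n) (S n) := by
  obtain ⟨s, rfl⟩ : ∃ s, l = s + 2 := ⟨l - 2, by omega⟩
  have e1 : s + 2 - 1 = s + 1 := by omega
  have e2 : 2 * (s + 2) - 2 = 2 * s + 2 := by omega
  unfold CondB at hP ⊢
  rw [e1, e2] at hP ⊢
  have hbip : (fun n : ℕ => ∑ u : Fin n, ∑ v ∈ Finset.univ.erase u,
      (numPaths (bip (A n) (S n)) (s + 1) u v : ℝ) ^ 2) =O[atTop]
      fun n : ℕ => (n : ℝ) ^ (2 * s + 2) * p n ^ (2 * s + 2) := by
    refine IsBigO.of_bound (2 ^ (2 * s + 2)) ?_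
    filter_upwards [hg, hx.eventually_ge_atTop (((s + 2) / 2 + 1 : ℕ) : ℝ)] with n h1 h2
    have hpn := hp0 n
    rw [Real.norm_of_nonneg (Finset.sum_nonneg fun _ _ => Finset.sum_nonneg fun _ _ => sq_nonneg _),
      Real.norm_of_nonneg (by positivity)]
    refine (sum_bip_sq _ _ _).trans ?_
    refine (pow_le_pow_left₀ (Nat.cast_nonneg _) (h1.card_union h2) _).trans (le_of_eq ?_)
    rw [mul_pow, mul_pow]
  refine bigO_add (hP.const_mul_left 2) (hbip.const_mul_left 2) fun n => ⟨?_, ?_⟩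
  · exact Finset.sum_nonneg fun _ _ => Finset.sum_nonneg fun _ _ => sq_nonneg _
  · rw [Finset.mul_sum, Finset.mul_sum, ← Finset.sum_add_distrib]
    refine Finset.sum_le_sum fun u _ => ?_
    rw [Finset.mul_sum, Finset.mul_sum, ← Finset.sum_add_distrib]
    refine Finset.sum_le_sum fun v _ => ?_
    have h1 : (numPaths (plant (G n) (A n) (S n)) (s + 1) u v : ℝ) ≤
        numPaths (G n) (s + 1) u v + numPaths (bip (A n) (S n)) (s + 1) u v := by
      exact_mod_cast numPaths_plant_le (G n) (A n) (S n) (s + 1) u v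
    have h2 := pow_le_pow_left₀ (Nat.cast_nonneg _) h1 2
    refine h2.trans ?_
    nlinarith [sq_nonneg ((numPaths (G n) (s + 1) u v : ℝ) -
      numPaths (bip (A n) (S n)) (s + 1) u v)]

/-- The planted graph violates (D). -/
lemma not_condD_plant (hl : 3 ≤ l) (hp0 : ∀ n, 0 < p n)
    (hx : Tendsto (fun n : ℕ => (n : ℝ) * p n) atTop atTop)
    {ε : ℝ} (hε : 0 < ε)
    (hsp : ∀ᶠ n : ℕ in atTop, ((n : ℝ) * p n) ^ ((l + 1) / 2) ≤ (n : ℝ) ^ (1 - ε))
    {B : ℝ} {A S : (n : ℕ) → Finset (Fin n)}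
    (hg : ∀ᶠ n in atTop, Good l n (p n) B (G n) (A n) (S n)) :
    ¬ CondD l p fun n => plant (G n) (A n) (S n) := by
  intro hD
  set k : ℕ := ⌈3 / ε⌉₊ with hk
  have hk3 : 3 ≤ (k : ℝ) * ε := by
    have := Nat.le_ceil (3 / ε)
    rw [← hk, div_le_iff₀ hε] at this
    exact this
  have hk1 : 1 ≤ k := by
    rcases Nat.eq_zero_or_pos k with h | h
    · rw [h] at hk3; norm_num at hk3
    · exact h
  obtain ⟨K, hK, hKo⟩ := (hD k hk1).exists_pos
  rw [isBigOWith_iff] at hKo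
  set h := l / 2 with hh
  set h' := (l + 1) / 2 with hh'
  have hhh : h + h' = l := by omega
  have hbig : ∀ᶠ n : ℕ in atTop, 4 ^ (h * k) * K < (n : ℝ) :=
    (tendsto_natCast_atTop_atTop (R := ℝ)).eventually_gt_atTop _
  obtain ⟨n, h1, h2, h3, h4, h5, h6⟩ := (hg.and (hKo.and (hsp.and ((hx.eventually_ge_atTop
    (4 * ((h : ℝ) + 1))).and (hbig.and (eventually_ge_atTop 1)))))).exists
  have hpn := hp0 n
  have hn : (0 : ℝ) < n := by exact_mod_cast h6
  set x : ℝ := (n : ℝ) * p n with hxdef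
  have hx0 : 0 < x := by positivity
  have hh0 : (0 : ℝ) ≤ h := Nat.cast_nonneg _
  -- the size of `S`
  have hm1 : x - 1 ≤ (S n).card := by
    rw [h1.cardS]
    have := Nat.lt_floor_add_one x
    linarith
  have hmh : h + 1 ≤ (S n).card := by
    have : ((h + 1 : ℕ) : ℝ) ≤ (S n).card := by push_cast; linarith
    exact_mod_cast this
  obtain ⟨u, v, huv, hpath⟩ := numPaths_lower (H := plant (G n) (A n) (S n)) h1.disj
    (fun y z hyz => by
      rw [bip_adj] at hyz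
      rw [plant_adj]
      exact ⟨hyz.1, Or.inr hyz.2⟩) (l := l) (by omega) h1.cardA
    (Finset.card_pos.mp (by omega))
  have hlow : (x / 4) ^ h ≤ (numPaths (plant (G n) (A n) (S n)) l u v : ℝ) := by
    have e1 : ((S n).card - 1 + 1 - h) ^ h ≤ ((S n).card - 1).descFactorial h :=
      Nat.pow_sub_le_descFactorial _ _
    have e2 : (x / 4) ≤ (((S n).card - 1 + 1 - h : ℕ) : ℝ) := by
      rw [Nat.cast_sub (by omega), Nat.sub_add_cancel (by omega)]
      linarith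
    calc (x / 4) ^ h ≤ ((((S n).card - 1 + 1 - h : ℕ) : ℝ)) ^ h :=
          pow_le_pow_left₀ (by positivity) e2 _
      _ ≤ (numPaths (plant (G n) (A n) (S n)) l u v : ℝ) := by exact_mod_cast e1.trans hpath
  -- the sum is at least its term at `(u, v)`
  rw [Real.norm_of_nonneg (Finset.sum_nonneg fun _ _ => Finset.sum_nonneg fun _ _ => by positivity),
    Real.norm_of_nonneg (by positivity)] at h2
  have hterm : (numPaths (plant (G n) (A n) (S n)) l u v : ℝ) ^ k ≤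
      ∑ u : Fin n, ∑ v ∈ Finset.univ.erase u,
        (numPaths (plant (G n) (A n) (S n)) l u v : ℝ) ^ k := by
    refine le_trans ?_ (Finset.single_le_sum (f := fun u => ∑ v ∈ Finset.univ.erase u,
        (numPaths (plant (G n) (A n) (S n)) l u v : ℝ) ^ k)
        (fun _ _ => Finset.sum_nonneg fun _ _ => by positivity) (Finset.mem_univ u))
    exact Finset.single_le_sum (f := fun v =>
        (numPaths (plant (G n) (A n) (S n)) l u v : ℝ) ^ k)
        (fun _ _ => by positivity) (Finset.mem_erase.mpr ⟨huv.symm, Finset.mem_univ v⟩)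
  have hmain : ((x / 4) ^ h) ^ k ≤ K * ((n : ℝ) ^ (2 + k * (l - 1)) * p n ^ (k * l)) :=
    (pow_le_pow_left₀ (by positivity) hlow k).trans (hterm.trans h2)
  -- multiply by `n ^ k`
  have hmul : (n : ℝ) ^ k * (x ^ (h * k)) ≤ 4 ^ (h * k) * K * ((n : ℝ) ^ 2 * x ^ (h' * k)) *
      x ^ (h * k) := by
    have e1 : ((x / 4) ^ h) ^ k = x ^ (h * k) / 4 ^ (h * k) := by
      rw [← pow_mul, div_pow]
    rw [e1, div_le_iff₀ (by positivity)] at hmain
    have e2 : (n : ℝ) ^ k * (n : ℝ) ^ (2 + k * (l - 1)) = (n : ℝ) ^ 2 * (n : ℝ) ^ (k * l) := by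
      rw [← pow_add, ← pow_add]
      congr 1
      have : k * l = k * (l - 1) + k := by
        obtain ⟨t, rfl⟩ : ∃ t, l = t + 1 := ⟨l - 1, by omega⟩
        rw [Nat.add_sub_cancel]; ring
      omega
    have e3 : (n : ℝ) ^ (k * l) * p n ^ (k * l) = x ^ (h' * k) * x ^ (h * k) := by
      rw [← mul_pow, ← pow_add]
      congr 1
      rw [← hhh]; ring
    calc (n : ℝ) ^ k * x ^ (h * k)
        ≤ (n : ℝ) ^ k * (K * ((n : ℝ) ^ (2 + k * (l - 1)) * p n ^ (k * l)) * 4 ^ (h * k)) :=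
          mul_le_mul_of_nonneg_left hmain (by positivity)
      _ = 4 ^ (h * k) * K * (((n : ℝ) ^ k * (n : ℝ) ^ (2 + k * (l - 1))) * p n ^ (k * l)) := by
          ring
      _ = 4 ^ (h * k) * K * ((n : ℝ) ^ 2 * ((n : ℝ) ^ (k * l) * p n ^ (k * l))) := by
          rw [e2]; ring
      _ = _ := by rw [e3]; ring
  have hdiv : (n : ℝ) ^ k ≤ 4 ^ (h * k) * K * ((n : ℝ) ^ 2 * x ^ (h' * k)) :=
    le_of_mul_le_mul_right hmul (by positivity)
  have hpow : x ^ (h' * k) ≤ ((n : ℝ) ^ (1 - ε)) ^ k := by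
    rw [pow_mul]
    exact pow_le_pow_left₀ (by positivity) h3 k
  have hn1 : (1 : ℝ) ≤ n := by exact_mod_cast h6
  set R : ℝ := (n : ℝ) ^ 2 * ((n : ℝ) ^ (1 - ε)) ^ k with hR
  have hR0 : 0 < R := by
    have := Real.rpow_pos_of_pos hn (1 - ε)
    positivity
  have hfin : (n : ℝ) * R ≤ (n : ℝ) ^ k := by
    have e1 : (n : ℝ) * R = (n : ℝ) ^ (3 + (1 - ε) * k) := by
      rw [hR, Real.rpow_add hn, Real.rpow_mul hn.le, Real.rpow_natCast]
      have : (n : ℝ) ^ (3 : ℝ) = (n : ℝ) ^ 3 := by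
        rw [← Real.rpow_natCast]; norm_num
      rw [this]; ring
    rw [e1, ← Real.rpow_natCast (n : ℝ) k]
    apply Real.rpow_le_rpow_of_exponent_le hn1
    nlinarith
  have hle : (n : ℝ) ^ k ≤ 4 ^ (h * k) * K * R := by
    refine hdiv.trans ?_
    rw [hR]
    gcongr
  have : (n : ℝ) ≤ 4 ^ (h * k) * K := by
    have := hfin.trans hle
    exact le_of_mul_le_mul_right this hR0
  linarith

/-- In the range considered, `p → 0`. -/
lemma p_tendsto_zero (hl : 3 ≤ l) (hp0 : ∀ n, 0 < p n)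
    (hx : Tendsto (fun n : ℕ => (n : ℝ) * p n) atTop atTop)
    {ε : ℝ} (hε : 0 < ε)
    (hsp : ∀ᶠ n : ℕ in atTop, ((n : ℝ) * p n) ^ ((l + 1) / 2) ≤ (n : ℝ) ^ (1 - ε)) :
    Tendsto p atTop (𝓝 0) := by
  have h1 : Tendsto (fun n : ℕ => (n : ℝ) ^ (-ε)) atTop (𝓝 0) :=
    (tendsto_rpow_neg_atTop hε).comp tendsto_natCast_atTop_atTop
  refine squeeze_zero' (Filter.Eventually.of_forall fun n => (hp0 n).le) ?_ h1
  filter_upwards [hsp, hx.eventually_ge_atTop 1, eventually_ge_atTop 1] with n h2 h3 h4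
  have hn : (0 : ℝ) < n := by exact_mod_cast h4
  have h5 : (n : ℝ) * p n ≤ (n : ℝ) ^ (1 - ε) :=
    (le_self_pow₀ h3 (by omega)).trans h2
  rw [Real.rpow_sub hn, Real.rpow_one] at h5
  rw [Real.rpow_neg hn.le]
  rw [div_eq_mul_inv] at h5
  exact le_of_mul_le_mul_left h5 hn

end

/-- Surgery: every sequence with all the hypotheses can be changed into one that has them too but
violates (D). -/
theorem surgery {l : ℕ} (hl : 3 ≤ l) {C : ℝ} {κ : I → I → ℝ} {p : ℕ → ℝ} {G : GraphSeq}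
    (hp0 : ∀ n, 0 < p n) (hx : Tendsto (fun n : ℕ => (n : ℝ) * p n) atTop atTop)
    {ε : ℝ} (hε : 0 < ε)
    (hsp : ∀ᶠ n : ℕ in atTop, ((n : ℝ) * p n) ^ ((l + 1) / 2) ≤ (n : ℝ) ^ (1 - ε))
    (h : Hyp C l κ p G) : ∃ G' : GraphSeq, Hyp C l κ p G' ∧ ¬ CondD l p G' := by
  have hp := p_tendsto_zero hl hp0 hx hε hsp
  obtain ⟨B, hB, A, S, hg⟩ := exists_good (l := l) hp0 hx hp h.trees
  exact ⟨fun n => plant (G n) (A n) (S n),
    ⟨h.kernel, condA_plant hp0 hx hg h.trees, condB_plant hl hp0 hx hg h.paths,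
      condC_plant h.kernel hp0 hx hp hB hg h.cut, theta_plant hl hp0 hx hg h.theta⟩,
    not_condD_plant hl hp0 hx hε hsp hg⟩

end Q220.Theta
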