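import Pool.Agent.Q220.Theta.Comb

namespace Q220.Theta

open Function

variable {W : Type}

lemma thetaPt_zero (k l : ℕ) (i : Fin k) : thetaPt k l i 0 = Sum.inl false := by
  simp [thetaPt]

lemma thetaPt_mid {k l : ℕ} (i : Fin k) {j : ℕ} (h0 : j ≠ 0) (hj : j < l) :
    thetaPt k l i j = Sum.inr (i, ⟨j - 1, by omega⟩) := by
  unfold thetaPt
  rw [if_neg h0, dif_pos]

lemma thetaPt_last {k l : ℕ} (i : Fin k) {j : ℕ} (h0 : j ≠ 0) (hj : l ≤ j) :
    thetaPt k l i j = Sum.inl true := by
  unfold thetaPt
  rw [if_neg h0, dif_neg (by omega)]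

lemma thetaPt_inj {k l : ℕ} {i i' : Fin k} {j j' : ℕ} (hj : j ≤ l) (hj' : j' ≤ l)
    (h : thetaPt k l i j = thetaPt k l i' j') : j = j' ∧ (0 < j → j < l → i = i') := by
  rcases Nat.eq_zero_or_pos j with h0 | h0
  · subst h0
    refine ⟨?_, fun h => absurd h (lt_irrefl _)⟩
    rw [thetaPt_zero] at h
    by_contra hne
    rcases Nat.lt_or_ge j' l with h1 | h1
    · rw [thetaPt_mid i' (Ne.symm hne) h1] at h; simp at h
    · rw [thetaPt_last i' (Ne.symm hne) h1] at h; simp at h
  · rcases Nat.lt_or_ge j l with h1 | h1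
    · rw [thetaPt_mid i (by omega) h1] at h
      rcases Nat.eq_zero_or_pos j' with h0' | h0'
      · subst h0'; rw [thetaPt_zero] at h; simp at h
      · rcases Nat.lt_or_ge j' l with h1' | h1'
        · rw [thetaPt_mid i' (by omega) h1'] at h
          simp only [Sum.inr.injEq, Prod.mk.injEq, Fin.mk.injEq] at h
          exact ⟨by omega, fun _ _ => h.1⟩
        · rw [thetaPt_last i' (by omega) h1'] at h; simp at h
    · have : j = l := le_antisymm hj h1
      subst this
      rw [thetaPt_last i (by omega) le_rfl] at h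
      rcases Nat.eq_zero_or_pos j' with h0' | h0'
      · subst h0'; rw [thetaPt_zero] at h; simp at h
      · rcases Nat.lt_or_ge j' j with h1' | h1'
        · rw [thetaPt_mid i' (by omega) h1'] at h; simp at h
        · exact ⟨le_antisymm h1' hj', fun _ h => absurd h (lt_irrefl _)⟩

lemma theta_adj {k l : ℕ} (i : Fin k) {j : ℕ} (hj : j < l) :
    (thetaGraph k l).Adj (thetaPt k l i j) (thetaPt k l i (j + 1)) := by
  unfold thetaGraph
  rw [SimpleGraph.fromRel_adj]
  refine ⟨fun h => ?_, Or.inl ⟨i, j, hj, rfl, rfl⟩⟩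
  have := (thetaPt_inj (by omega) (by omega) h).1
  omega

lemma theta_reach {k l : ℕ} (i : Fin k) {j : ℕ} (hj : j ≤ l) :
    (thetaGraph k l).Reachable (thetaPt k l i 0) (thetaPt k l i j) := by
  induction j with
  | zero => exact SimpleGraph.Reachable.refl _
  | succ j ih => exact (ih (by omega)).trans (theta_adj i (by omega)).reachable

lemma theta_preconnected {k l : ℕ} (hk : 1 ≤ k) (hl : 1 ≤ l) :
    (thetaGraph k l).Preconnected := by
  have key : ∀ x, (thetaGraph k l).Reachable (Sum.inl false) x := by
    intro x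
    rcases x with b | ⟨i, j⟩
    · cases b
      · exact SimpleGraph.Reachable.refl _
      · have := theta_reach (k := k) (l := l) ⟨0, hk⟩ (j := l) le_rfl
        rwa [thetaPt_zero, thetaPt_last _ (by omega) le_rfl] at this
    · have := theta_reach (k := k) (l := l) i (j := (j : ℕ) + 1) (by omega)
      rw [thetaPt_zero, thetaPt_mid _ (by omega) (by omega)] at this
      have h2 : (⟨(j : ℕ) + 1 - 1, by omega⟩ : Fin (l - 1)) = j := Fin.ext (by simp)
      rw [h2] at this
      exact this
  intro x y
  exact (key x).symm.trans (key y)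

lemma theta_card (k l : ℕ) :
    Fintype.card (Bool ⊕ (Fin k × Fin (l - 1))) = 2 + k * (l - 1) := by
  simp

section
variable [DecidableEq W]

/-- A bipartite graph with fewer than `l` vertices on one side contains no theta graph with at
least two paths of length `l ≥ 2`. -/
lemma emb_theta_bip [Finite W] {k l : ℕ} (hk : 2 ≤ k) (hl : 2 ≤ l) {A S : Finset W}
    (hd : Disjoint A S) (hA : A.card < l) : emb (thetaGraph k l) (bip A S) = 0 := by
  classical
  unfold emb
  rw [Set.ncard_eq_zero (Set.toFinite _), Set.eq_empty_iff_forall_notMem]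
  rintro f ⟨hi, hf⟩
  set i0 : Fin k := ⟨0, by omega⟩ with hi0
  set i1 : Fin k := ⟨1, by omega⟩ with hi1
  have hne : i0 ≠ i1 := by
    intro h; have := congrArg Fin.val h; simp [hi0, hi1] at this
  let w : ℕ → Bool ⊕ (Fin k × Fin (l - 1)) := fun z =>
    if z ≤ l then thetaPt k l i0 z else thetaPt k l i1 (2 * l - z)
  have hadj : ∀ z, z + 1 < 2 * l → (thetaGraph k l).Adj (w z) (w (z + 1)) := by
    intro z hz
    rcases Nat.lt_trichotomy z l with h | h | h
    · simp only [w]
      rw [if_pos h.le, if_pos (by omega)]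
      exact theta_adj i0 h
    · subst h
      simp only [w]
      rw [if_pos le_rfl, if_neg (by omega)]
      have h1 : thetaPt k z i0 z = thetaPt k z i1 z := by
        rw [thetaPt_last i0 (by omega) le_rfl, thetaPt_last i1 (by omega) le_rfl]
      rw [h1]
      have h2 := theta_adj (k := k) (l := z) i1 (j := 2 * z - (z + 1)) (by omega)
      have h3 : 2 * z - (z + 1) + 1 = z := by omega
      rw [h3] at h2
      exact h2.symm
    · simp only [w]
      rw [if_neg (by omega), if_neg (by omega)]
      have h2 := theta_adj (k := k) (l := l) i1 (j := 2 * l - (z + 1)) (by omega)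
      have h3 : 2 * l - (z + 1) + 1 = 2 * l - z := by omega
      rw [h3] at h2
      exact h2.symm
  have hinj : ∀ z z', z < 2 * l → z' < 2 * l → w z = w z' → z = z' := by
    intro z z' hz hz' h
    simp only [w] at h
    split_ifs at h with h1 h2 h2
    · exact (thetaPt_inj h1 h2 h).1
    · obtain ⟨h3, h4⟩ := thetaPt_inj h1 (by omega) h
      exact absurd (h4 (by omega) (by omega)) hne
    · obtain ⟨h3, h4⟩ := thetaPt_inj (by omega) h2 h
      exact absurd (h4 (by omega) (by omega)).symm hne
    · have := (thetaPt_inj (by omega) (by omega) h).1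
      omega
  have hpar : ∀ z, z < 2 * l → (f (w z) ∈ A ↔ (Even z ↔ f (w 0) ∈ A)) := by
    intro z
    induction z with
    | zero => intro _; simp
    | succ z ih =>
      intro hz
      have h1 := ih (by omega)
      have h2 := bip_flip hd (hf _ _ (hadj z hz))
      have h3 := Nat.even_add_one (n := z)
      tauto
  let c : ℕ := if f (w 0) ∈ A then 0 else 1
  have hg : ∀ t : Fin l, f (w (2 * (t : ℕ) + c)) ∈ A := by
    intro t
    have ht := t.2
    have hc : c ≤ 1 := by simp only [c]; split_ifs <;> omega
    rw [hpar _ (by omega)]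
    by_cases h0 : f (w 0) ∈ A
    · have : c = 0 := by simp [c, h0]
      rw [this]; simp [h0]
    · have : c = 1 := by simp [c, h0]
      rw [this]; simp [h0]
  have hcard : Fintype.card (Fin l) ≤ Fintype.card A := by
    refine Fintype.card_le_of_injective (fun t : Fin l => (⟨f (w (2 * (t : ℕ) + c)), hg t⟩ : A)) ?_
    intro t t' htt
    have hc : c ≤ 1 := by simp only [c]; split_ifs <;> omega
    have h1 := hi (Subtype.mk.inj htt)
    have h2 := hinj _ _ (by have := t.2; omega) (by have := t'.2; omega) h1
    apply Fin.ext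
    omega
  rw [Fintype.card_fin, Fintype.card_coe] at hcard
  omega

/-- Many paths between two vertices in a complete bipartite graph with `l/2 + 1` vertices on one
side. -/
lemma numPaths_lower [Fintype W] {H : SimpleGraph W} {A S : Finset W} (hd : Disjoint A S)
    (hH : ∀ x y, (bip A S).Adj x y → H.Adj x y) {l : ℕ} (hl : 1 ≤ l) (hA : A.card = l / 2 + 1)
    (hS : S.Nonempty) :
    ∃ u v, u ≠ v ∧ (S.card - 1).descFactorial (l / 2) ≤ numPaths H l u v := by
  classical
  obtain ⟨s, hs⟩ := hS
  let e : Fin (l / 2 + 1) ≃ A := (A.equivFinOfCardEq hA).symm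
  have hAS : ∀ z, z ∈ A → z ∉ S := fun z hz hz' => (Finset.disjoint_left.mp hd) hz hz'
  let ex : ℕ → W := fun j => if h : j < l / 2 + 1 then (e ⟨j, h⟩ : W) else s
  have hex : ∀ j, j < l / 2 + 1 → ex j ∈ A := by
    intro j hj
    simp only [ex, dif_pos hj]
    exact (e ⟨j, hj⟩).2
  have hexinj : ∀ j j', j < l / 2 + 1 → j' < l / 2 + 1 → ex j = ex j' → j = j' := by
    intro j j' hj hj' h
    simp only [ex, dif_pos hj, dif_pos hj'] at h
    have := e.injective (Subtype.ext h)
    exact congrArg Fin.val this
  let gx : (Fin (l / 2) ↪ (S.erase s : Finset W)) → ℕ → W :=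
    fun g j => if h : j < l / 2 then (g ⟨j, h⟩ : W) else s
  have hgx : ∀ g j, gx g j ∈ S := by
    intro g j
    simp only [gx]
    split_ifs with h
    · exact Finset.mem_of_mem_erase (g ⟨j, h⟩).2
    · exact hs
  have hgxinj : ∀ g j j', j < l / 2 → j' < l / 2 → gx g j = gx g j' → j = j' := by
    intro g j j' hj hj' h
    simp only [gx, dif_pos hj, dif_pos hj'] at h
    have := g.injective (Subtype.ext h)
    exact congrArg Fin.val this
  have hgxs : ∀ g j, j < l / 2 → gx g j ≠ s := by
    intro g j hj
    simp only [gx, dif_pos hj]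
    exact Finset.ne_of_mem_erase (g ⟨j, hj⟩).2
  -- the path
  let px : (Fin (l / 2) ↪ (S.erase s : Finset W)) → Fin (l + 1) → W :=
    fun g i => if (i : ℕ) % 2 = 0 then ex (i / 2) else gx g (i / 2)
  let v : W := if l % 2 = 0 then ex (l / 2) else s
  have hlast : ∀ g, px g (Fin.last l) = v := by
    intro g
    simp only [px, v, Fin.val_last]
    split_ifs with h
    · rfl
    · simp only [gx]
      rw [dif_neg (lt_irrefl _)]
  refine ⟨ex 0, v, ?_, ?_⟩
  · intro h
    by_cases hp : l % 2 = 0
    · simp only [v, if_pos hp] at h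
      have := hexinj _ _ (by omega) (by omega) h
      omega
    · simp only [v, if_neg hp] at h
      exact hAS _ (hex 0 (by omega)) (h ▸ hs)
  · have hcard : (S.card - 1).descFactorial (l / 2) =
        Nat.card (Fin (l / 2) ↪ (S.erase s : Finset W)) := by
      rw [Nat.card_eq_fintype_card, Fintype.card_embedding_eq, Fintype.card_coe,
        Finset.card_erase_of_mem hs, Fintype.card_fin]
    rw [hcard]
    unfold numPaths
    rw [← Nat.card_coe_set_eq]
    have hmem : ∀ g, px g ∈ {x : Fin (l + 1) → W | Injective x ∧ x 0 = ex 0 ∧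
        x (Fin.last l) = v ∧ ∀ i : Fin l, H.Adj (x i.castSucc) (x i.succ)} := by
      intro g
      refine ⟨?_, ?_, hlast g, ?_⟩
      · intro i i' h
        have hi := i.2
        have hi' := i'.2
        simp only [px] at h
        split_ifs at h with h1 h2 h2
        · have := hexinj _ _ (by omega) (by omega) h
          apply Fin.ext; omega
        · exact absurd (h ▸ hgx g _) (hAS _ (hex _ (by omega)))
        · exact absurd (h.symm ▸ hgx g _) (hAS _ (hex _ (by omega)))
        · apply Fin.ext
          rcases Nat.lt_or_ge ((i : ℕ) / 2) (l / 2) with h3 | h3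
          · rcases Nat.lt_or_ge ((i' : ℕ) / 2) (l / 2) with h4 | h4
            · have := hgxinj g _ _ h3 h4 h
              omega
            · have h5 : gx g ((i' : ℕ) / 2) = s := by
                simp only [gx]; rw [dif_neg (by omega)]
              exact absurd (h.trans h5) (hgxs g _ h3)
          · rcases Nat.lt_or_ge ((i' : ℕ) / 2) (l / 2) with h4 | h4
            · have h5 : gx g ((i : ℕ) / 2) = s := by
                simp only [gx]; rw [dif_neg (by omega)]
              exact absurd (h.symm.trans h5) (hgxs g _ h4)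
            · omega
      · simp [px]
      · intro i
        apply hH
        have hi := i.2
        rw [bip_adj]
        simp only [px, Fin.val_castSucc, Fin.val_succ]
        rcases Nat.mod_two_eq_zero_or_one (i : ℕ) with h1 | h1
        · rw [if_pos h1, if_neg (by omega)]
          have ha := hex ((i : ℕ) / 2) (by omega)
          have hb := hgx g (((i : ℕ) + 1) / 2)
          exact ⟨fun h => hAS _ ha (h ▸ hb), Or.inl ⟨ha, hb⟩⟩
        · rw [if_neg (by omega), if_pos (by omega)]
          have ha := hex (((i : ℕ) + 1) / 2) (by omega)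
          have hb := hgx g ((i : ℕ) / 2)
          exact ⟨fun h => hAS _ ha (h ▸ hb), Or.inr ⟨ha, hb⟩⟩
    refine Nat.card_le_card_of_injective (fun g => ⟨px g, hmem g⟩) ?_
    intro g g' h
    have h1 := Subtype.mk.inj h
    apply DFunLike.ext
    intro t
    have ht := t.2
    have h2 := congrFun h1 ⟨2 * (t : ℕ) + 1, by omega⟩
    simp only [px] at h2
    rw [if_neg (by omega), if_neg (by omega)] at h2
    have h3 : (2 * (t : ℕ) + 1) / 2 = t := by omega
    rw [h3] at h2
    simp only [gx, dif_pos ht] at h2
    exact Subtype.ext h2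

end

end Q220.Theta
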