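import Pool.Agent.Q220.Theta.Comb
import Pool.Agent.Q220.Theta.Thetas
import Pool.Agent.Q220.Theta.Cut

open MeasureTheory Filter Asymptotics
open scoped unitInterval Topology

namespace Q220.Theta

/-- The degree of a vertex. -/
noncomputable def dg {n : ℕ} (G : SimpleGraph (Fin n)) (v : Fin n) : ℕ :=
  open Classical in (Finset.univ.filter fun w => G.Adj v w).card

lemma sum_dg_le {n : ℕ} (G : SimpleGraph (Fin n)) :
    ∑ v, dg G v ≤ emb (⊤ : SimpleGraph (Fin 2)) G := by
  classical
  unfold dg emb
  rw [← Finset.card_sigma, ← Set.ncard_coe_finset]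
  refine Set.ncard_le_ncard_of_injOn (fun x => ![x.1, x.2]) ?_ ?_ (Set.toFinite _)
  · rintro ⟨i, j⟩ hx
    simp only [Finset.coe_sigma, Set.mem_sigma_iff, Finset.mem_coe, Finset.mem_univ, true_and,
      Finset.mem_filter] at hx
    refine ⟨?_, ?_⟩
    · intro u v huv
      fin_cases u <;> fin_cases v <;> simp at huv ⊢
      · exact hx.ne huv
      · exact hx.ne huv.symm
    · intro u v huv
      fin_cases u <;> fin_cases v <;> simp at huv ⊢
      · exact hx
      · exact hx.symm
  · rintro ⟨i, j⟩ - ⟨i', j'⟩ - h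
    have h0 := congrFun h 0
    have h1 := congrFun h 1
    simp at h0 h1
    subst h0 h1
    rfl

lemma edge_isTree : (⊤ : SimpleGraph (Fin 2)).IsTree := by
  rw [SimpleGraph.isTree_iff_connected_and_card]
  refine ⟨SimpleGraph.connected_top, ?_⟩
  rw [Nat.card_eq_fintype_card, Nat.card_eq_fintype_card, ← SimpleGraph.edgeFinset_card,
    SimpleGraph.card_edgeFinset_top_eq_card_choose_two]
  decide

lemma exists_AS {n a m : ℕ} (G : SimpleGraph (Fin n)) {t : ℝ} (ht : 0 < t)
    (hsum : (∑ v, dg G v : ℕ) ≤ (n : ℝ) * t / 2) (h : 2 * (m + a) ≤ n) :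
    ∃ A S : Finset (Fin n), Disjoint A S ∧ A.card = a ∧ S.card = m ∧
      ∀ v ∈ A ∪ S, (dg G v : ℝ) ≤ t := by
  classical
  set low : Finset (Fin n) := Finset.univ.filter fun v => (dg G v : ℝ) ≤ t with hlow
  set high : Finset (Fin n) := Finset.univ.filter fun v => ¬ (dg G v : ℝ) ≤ t with hhigh
  have hcard : low.card + high.card = n := by
    rw [hlow, hhigh, Finset.card_filter_add_card_filter_not, Finset.card_univ, Fintype.card_fin]
  have h1 : (high.card : ℝ) * t ≤ (n : ℝ) * t / 2 := by
    refine le_trans ?_ hsum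
    push_cast
    calc (high.card : ℝ) * t = ∑ v ∈ high, t := by rw [Finset.sum_const, nsmul_eq_mul]
      _ ≤ ∑ v ∈ high, (dg G v : ℝ) := Finset.sum_le_sum fun v hv => by
          rw [hhigh, Finset.mem_filter] at hv
          exact (not_le.mp hv.2).le
      _ ≤ ∑ v, (dg G v : ℝ) := Finset.sum_le_sum_of_subset_of_nonneg (Finset.subset_univ _)
          fun _ _ _ => Nat.cast_nonneg _
  have h2 : (high.card : ℝ) ≤ n / 2 := by
    by_contra hc
    push Not at hc
    nlinarith
  have h3 : m + a ≤ low.card := by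
    have h4 : (2 * (m + a) : ℝ) ≤ n := by exact_mod_cast h
    have h5 : (low.card : ℝ) + high.card = n := by exact_mod_cast hcard
    have h6 : ((m + a : ℕ) : ℝ) ≤ low.card := by push_cast; linarith
    exact_mod_cast h6
  obtain ⟨W, hW, hWc⟩ := Finset.exists_subset_card_eq h3
  obtain ⟨A, hA, hAc⟩ := Finset.exists_subset_card_eq (s := W) (n := a) (by omega)
  refine ⟨A, W \ A, Finset.disjoint_sdiff, hAc, ?_, ?_⟩
  · rw [Finset.card_sdiff_of_subset hA, hWc, hAc]; omega
  · intro v hv
    rw [Finset.union_sdiff_of_subset hA] at hv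
    have := hW hv
    rw [hlow, Finset.mem_filter] at this
    exact this.2

/-- The set of pairs where `G` and `plant G A S` may differ is small. -/
lemma diff_set {n a m : ℕ} (G : SimpleGraph (Fin n)) {A S : Finset (Fin n)} {t : ℝ}
    (hA : A.card = a) (hS : S.card = m) (h : ∀ v ∈ A ∪ S, (dg G v : ℝ) ≤ t) :
    ∃ D : Finset (Fin n × Fin n), (D.card : ℝ) ≤ 2 * ((m + a) * t) + 2 * (a * m) ∧
      ∀ i j, (G.Adj i j ↔ (plant G A S).Adj i j) ∨ (i, j) ∈ D := by
  classical
  let D1 : Finset (Fin n × Fin n) := (A ∪ S).biUnion fun i =>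
    (Finset.univ.filter fun w => G.Adj i w).image fun j => (i, j)
  let D2 : Finset (Fin n × Fin n) := (A ∪ S).biUnion fun i =>
    (Finset.univ.filter fun w => G.Adj i w).image fun j => (j, i)
  have hU : ((A ∪ S).card : ℝ) ≤ m + a := by
    have := Finset.card_union_le A S
    rw [hA, hS] at this
    have h2 : ((A ∪ S).card : ℝ) ≤ ((a + m : ℕ) : ℝ) := by exact_mod_cast this
    push_cast at h2
    linarith
  have ht0 : (A ∪ S).Nonempty → 0 ≤ t := fun ⟨v, hv⟩ => (Nat.cast_nonneg _).trans (h v hv)
  have hb : ∀ f : Fin n → Fin n → Fin n × Fin n,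
      ((((A ∪ S).biUnion fun i => (Finset.univ.filter fun w => G.Adj i w).image (f i)).card : ℕ) : ℝ)
        ≤ (A ∪ S).card * t := by
    intro f
    have h1 : (((A ∪ S).biUnion fun i =>
        (Finset.univ.filter fun w => G.Adj i w).image (f i)).card : ℕ) ≤
        ∑ i ∈ A ∪ S, dg G i := by
      refine Finset.card_biUnion_le.trans (Finset.sum_le_sum fun i _ => ?_)
      unfold dg
      exact Finset.card_image_le
    calc _ ≤ ((∑ i ∈ A ∪ S, dg G i : ℕ) : ℝ) := by exact_mod_cast h1
      _ = ∑ i ∈ A ∪ S, (dg G i : ℝ) := by push_cast; rfl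
      _ ≤ ∑ i ∈ A ∪ S, t := Finset.sum_le_sum h
      _ = _ := by rw [Finset.sum_const, nsmul_eq_mul]
  have hUt : ((A ∪ S).card : ℝ) * t ≤ (m + a) * t := by
    rcases (A ∪ S).eq_empty_or_nonempty with he | he
    · have hA0 : A = ∅ := by
        rw [Finset.union_eq_empty] at he; exact he.1
      have hS0 : S = ∅ := by
        rw [Finset.union_eq_empty] at he; exact he.2
      have ha : a = 0 := by rw [← hA, hA0]; rfl
      have hm : m = 0 := by rw [← hS, hS0]; rfl
      rw [he, ha, hm]; simp
    · exact mul_le_mul_of_nonneg_right hU (ht0 he)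
  refine ⟨D1 ∪ D2 ∪ A ×ˢ S ∪ S ×ˢ A, ?_, ?_⟩
  · have h1 : ((D1 ∪ D2 ∪ A ×ˢ S ∪ S ×ˢ A).card : ℝ) ≤ D1.card + D2.card + a * m + m * a := by
      have e1 := Finset.card_union_le (D1 ∪ D2 ∪ A ×ˢ S) (S ×ˢ A)
      have e2 := Finset.card_union_le (D1 ∪ D2) (A ×ˢ S)
      have e3 := Finset.card_union_le D1 D2
      rw [Finset.card_product, hA, hS] at e1 e2
      have : (D1 ∪ D2 ∪ A ×ˢ S ∪ S ×ˢ A).card ≤ D1.card + D2.card + a * m + m * a := by omega
      exact_mod_cast this
    have h2 := (hb fun i j => (i, j)).trans hUt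
    have h3 := (hb fun i j => (j, i)).trans hUt
    have h2' : (D1.card : ℝ) ≤ (m + a) * t := h2
    have h3' : (D2.card : ℝ) ≤ (m + a) * t := h3
    nlinarith
  · intro i j
    by_cases hi : i ∈ A ∪ S
    · by_cases hG : G.Adj i j
      · right
        simp only [Finset.mem_union]
        left; left; left
        rw [Finset.mem_biUnion]
        exact ⟨i, hi, by simp [hG]⟩
      · by_cases hP : (plant G A S).Adj i j
        · right
          rw [plant_adj] at hP
          simp only [Finset.mem_union, Finset.mem_product]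
          rcases hP.2 with h1 | h1 | h1
          · exact absurd h1.2.2 hG
          · left; right; exact h1
          · right; exact ⟨h1.2, h1.1⟩
        · left; simp [hG, hP]
    · by_cases hj : j ∈ A ∪ S
      · by_cases hG : G.Adj i j
        · right
          simp only [Finset.mem_union]
          left; left; right
          rw [Finset.mem_biUnion]
          exact ⟨j, hj, by simp [hG.symm]⟩
        · left
          constructor
          · intro h; exact absurd h hG
          · intro h; exact absurd (plant_out h hi) hG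
      · left
        constructor
        · intro h
          rw [plant_adj]
          exact ⟨h.ne, Or.inl ⟨hi, hj, h⟩⟩
        · intro h
          exact plant_out h hi

end Q220.Theta
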